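import Mathlib
import Pool.Agent.H13.ParEven

/-!
# A filtration argument for the parity of the rank of the curl
-/

set_option linter.unusedSectionVars false

namespace Pool.Agent.H17.LF

open Pool.Agent.H13.Par

section bil

variable {k W : Type*} [Field k] [AddCommGroup W] [Module k W] [Module.Finite k W]

/-- If the orthogonal of an isotropic subspace `F` is `F` plus the radical, the rank is even. -/
theorem even_rank_of_isotropic (B : W →ₗ[k] W →ₗ[k] k) (hB : ∀ u v, B u v = B v u)
    (F : Submodule k W) (hF : ∀ u ∈ F, ∀ v ∈ F, B u v = 0)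
    (hG : ∀ u, (∀ v ∈ F, B u v = 0) → u ∈ F ⊔ LinearMap.ker B) :
    Even (Module.finrank k (LinearMap.range B)) := by
  have hrefl : LinearMap.BilinForm.IsRefl B := fun u v h => by rw [hB]; exact h
  have h1 := LinearMap.BilinForm.finrank_add_finrank_orthogonal (B := B) hrefl F
  have h2 : LinearMap.BilinForm.orthogonal B F = F ⊔ LinearMap.ker B := by
    apply le_antisymm
    · intro u hu
      apply hG
      intro v hv
      rw [hB]
      exact hu v hv
    · apply sup_le
      · intro u hu v hv
        exact hF v hv u hu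
      · intro u hu v hv
        change B v u = 0
        rw [hB, LinearMap.mem_ker.1 hu, LinearMap.zero_apply]
  have h3 : LinearMap.BilinForm.orthogonal B ⊤ = LinearMap.ker B := by
    ext u
    rw [LinearMap.mem_ker]
    constructor
    · intro h
      refine LinearMap.ext fun v => ?_
      rw [hB]
      exact h v trivial
    · intro h v _
      change B v u = 0
      rw [hB, h, LinearMap.zero_apply]
  rw [h2, h3] at h1
  have h4 := Submodule.finrank_sup_add_finrank_inf_eq F (LinearMap.ker B)
  have h5 := LinearMap.finrank_range_add_finrank_ker B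
  have h6 : Module.finrank k (F ⊓ LinearMap.ker B : Submodule k W) ≤ Module.finrank k F :=
    Submodule.finrank_mono inf_le_left
  refine ⟨Module.finrank k F - Module.finrank k (F ⊓ LinearMap.ker B : Submodule k W), ?_⟩
  omega

end bil

section fil

variable {k V κ : Type*} [Field k] [AddCommGroup V] [Module k V] [Fintype κ]
  (b : Module.Basis κ k V) (ω : κ → ℤ)

/-- Vectors of degree at least `n`. -/
def fil (n : ℤ) : Submodule k V where
  carrier := {v | ∀ e, ω e < n → b.repr v e = 0}
  add_mem' := by
    intro u v hu hv e he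
    rw [map_add, Finsupp.add_apply, hu e he, hv e he, add_zero]
  zero_mem' := by
    intro e _
    rw [map_zero, Finsupp.zero_apply]
  smul_mem' := by
    intro c v hv e he
    rw [map_smul, Finsupp.smul_apply, hv e he, smul_zero]

theorem mem_fil {n : ℤ} {v : V} : v ∈ fil b ω n ↔ ∀ e, ω e < n → b.repr v e = 0 := Iff.rfl

theorem fil_anti {m n : ℤ} (h : m ≤ n) : fil b ω n ≤ fil b ω m := by
  intro v hv e he
  exact hv e (by omega)

theorem basis_mem_fil (e : κ) : b e ∈ fil b ω (ω e) := by
  classical
  intro e' he'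
  rw [b.repr_self, Finsupp.single_apply, if_neg]
  rintro rfl
  exact lt_irrefl _ he'

/-- Endomorphisms which raise the degree by at least `m`. -/
def up (m : ℤ) : Submodule k (Module.End k V) where
  carrier := {A | ∀ n v, v ∈ fil b ω n → A v ∈ fil b ω (n + m)}
  add_mem' := by
    intro A B hA hB n v hv
    exact Submodule.add_mem _ (hA n v hv) (hB n v hv)
  zero_mem' := by
    intro n v _
    exact Submodule.zero_mem _
  smul_mem' := by
    intro c A hA n v hv
    exact Submodule.smul_mem _ c (hA n v hv)

theorem mem_up {m : ℤ} {A : Module.End k V} :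
    A ∈ up b ω m ↔ ∀ n v, v ∈ fil b ω n → A v ∈ fil b ω (n + m) := Iff.rfl

theorem up_anti {m n : ℤ} (h : m ≤ n) : up b ω n ≤ up b ω m := by
  intro A hA l v hv
  exact fil_anti b ω (by omega) (hA l v hv)

theorem mul_mem_up {m n : ℤ} {A B : Module.End k V} (hA : A ∈ up b ω m) (hB : B ∈ up b ω n) :
    A * B ∈ up b ω (n + m) := by
  intro l v hv
  rw [← add_assoc]
  exact hA _ _ (hB l v hv)

theorem up_of_basis {m : ℤ} {A : Module.End k V} (h : ∀ e, A (b e) ∈ fil b ω (ω e + m)) :
    A ∈ up b ω m := by
  intro n v hv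
  rw [← b.sum_repr v, map_sum]
  refine Submodule.sum_mem _ fun e _ => ?_
  rw [map_smul]
  by_cases he : ω e < n
  · rw [hv e he, zero_smul]
    exact Submodule.zero_mem _
  · exact Submodule.smul_mem _ _ (fil_anti b ω (by omega) (h e))

theorem trace_eq_zero_of_up {A : Module.End k V} (hA : A ∈ up b ω 1) :
    LinearMap.trace k V A = 0 := by
  classical
  rw [LinearMap.trace_eq_matrix_trace k b A, Matrix.trace]
  refine Finset.sum_eq_zero fun e _ => ?_
  rw [Matrix.diag_apply, LinearMap.toMatrix_apply]
  exact hA _ _ (basis_mem_fil b ω e) e (by omega)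

theorem up_of_trace {m : ℤ} {A : Module.End k V}
    (h : ∀ M ∈ up b ω m, LinearMap.trace k V (A * M) = 0) : A ∈ up b ω (1 - m) := by
  have : Module.Finite k V := Module.Finite.of_basis b
  apply up_of_basis
  intro e' e he
  have hM : (b.coord e).smulRight (b e') ∈ up b ω m := by
    intro n v hv
    rw [LinearMap.smulRight_apply]
    by_cases h2 : ω e < n
    · rw [Module.Basis.coord_apply, hv e h2, zero_smul]
      exact Submodule.zero_mem _
    · exact Submodule.smul_mem _ _ (fil_anti b ω (by omega) (basis_mem_fil b ω e'))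
  have h1 := h _ hM
  have h2 : A * (b.coord e).smulRight (b e') = (b.coord e).smulRight (A (b e')) := by
    refine LinearMap.ext fun w => ?_
    simp
  rw [h2, LinearMap.trace_smulRight] at h1
  exact h1

theorem fil_top [Nonempty κ] : ∃ n : ℤ, fil b ω n = ⊤ := by
  obtain ⟨e0, he0⟩ := Finite.exists_min ω
  refine ⟨ω e0, ?_⟩
  rw [eq_top_iff]
  intro v _ e he
  exact absurd (he0 e) (by omega)

theorem exists_fil_top : ∃ n : ℤ, fil b ω n = ⊤ := by
  rcases isEmpty_or_nonempty κ with h | h
  · refine ⟨0, ?_⟩
    rw [eq_top_iff]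
    intro v _ e
    exact h.elim e
  · exact fil_top b ω

theorem exists_fil_bot : ∃ n : ℤ, fil b ω n = ⊥ := by
  rcases isEmpty_or_nonempty κ with h | h
  · refine ⟨0, ?_⟩
    rw [eq_bot_iff]
    intro v _
    have : Subsingleton V := b.repr.toEquiv.subsingleton
    exact Subsingleton.elim _ _
  · obtain ⟨e0, he0⟩ := Finite.exists_max ω
    refine ⟨ω e0 + 1, ?_⟩
    rw [eq_bot_iff]
    intro v hv
    rw [Submodule.mem_bot]
    apply b.repr.injective
    ext e
    rw [map_zero, Finsupp.zero_apply]
    exact hv e (by have := he0 e; omega)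

/-- Every endomorphism raises the degree by at least some integer. -/
theorem exists_up (A : Module.End k V) : ∃ m : ℤ, A ∈ up b ω m := by
  obtain ⟨n1, h1⟩ := exists_fil_top b ω
  obtain ⟨n2, h2⟩ := exists_fil_bot b ω
  refine ⟨n1 - n2, ?_⟩
  intro n v hv
  by_cases h : n2 ≤ n
  · have : v = 0 := by
      have h3 := fil_anti b ω h hv
      rwa [h2, Submodule.mem_bot] at h3
    rw [this, map_zero]
    exact Submodule.zero_mem _
  · have : A v ∈ fil b ω n1 := by
      rw [h1]
      trivial
    exact fil_anti b ω (by omega) this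

variable (w : Fin 3 → ℤ)

/-- Triples `u` such that `u i` raises the degree by at least `c + w i`. -/
def upT (c : ℤ) : Submodule k (Fin 3 → Module.End k V) where
  carrier := {u | ∀ i, u i ∈ up b ω (c + w i)}
  add_mem' := fun hu hv i => Submodule.add_mem _ (hu i) (hv i)
  zero_mem' := fun _ => Submodule.zero_mem _
  smul_mem' := fun c _ hu i => Submodule.smul_mem _ c (hu i)

theorem mem_upT {c : ℤ} {u : Fin 3 → Module.End k V} :
    u ∈ upT b ω w c ↔ ∀ i, u i ∈ up b ω (c + w i) := Iff.rfl

theorem upT_anti {m n : ℤ} (h : m ≤ n) : upT b ω w n ≤ upT b ω w m := by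
  intro u hu i
  exact up_anti b ω (by omega) (hu i)

theorem exists_upT (u : Fin 3 → Module.End k V) : ∃ m : ℤ, u ∈ upT b ω w m := by
  choose m hm using fun i => exists_up b ω (u i)
  refine ⟨min (m 0 - w 0) (min (m 1 - w 1) (m 2 - w 2)), fun i => ?_⟩
  refine up_anti b ω ?_ (hm i)
  fin_cases i
  · have := min_le_left (m 0 - w 0) (min (m 1 - w 1) (m 2 - w 2))
    change min (m 0 - w 0) (min (m 1 - w 1) (m 2 - w 2)) + w 0 ≤ m 0
    omega
  · change min (m 0 - w 0) (min (m 1 - w 1) (m 2 - w 2)) + w 1 ≤ m 1
    have h1 := min_le_right (m 0 - w 0) (min (m 1 - w 1) (m 2 - w 2))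
    have h2 := min_le_left (m 1 - w 1) (m 2 - w 2)
    omega
  · change min (m 0 - w 0) (min (m 1 - w 1) (m 2 - w 2)) + w 2 ≤ m 2
    have h1 := min_le_right (m 0 - w 0) (min (m 1 - w 1) (m 2 - w 2))
    have h2 := min_le_right (m 1 - w 1) (m 2 - w 2)
    omega

theorem tri_eq_zero {X u v : Fin 3 → Module.End k V} (hX : ∀ i, X i ∈ up b ω (w i)) {c : ℤ}
    (hu : u ∈ upT b ω w c) (hv : v ∈ upT b ω w c) {i j l : Fin 3}
    (h : 1 ≤ 2 * c + (w i + w j + w l)) : tri X u v i j l = 0 := by
  rw [tri]
  apply trace_eq_zero_of_up b ω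
  have h1 : X i * u j - u j * X i ∈ up b ω (c + w j + w i) := by
    apply Submodule.sub_mem
    · exact mul_mem_up b ω (hX i) (hu j)
    · have := mul_mem_up b ω (hu j) (hX i)
      rwa [add_comm (w i)] at this
  exact up_anti b ω (by linarith) (mul_mem_up b ω h1 (hv l))

theorem isotropic {X u v : Fin 3 → Module.End k V} [Module.Finite k V]
    (hX : ∀ i, X i ∈ up b ω (w i)) {c : ℤ}
    (hc : 1 ≤ 2 * c + (w 0 + w 1 + w 2))
    (hu : u ∈ upT b ω w c) (hv : v ∈ upT b ω w c) : tp (curl X u) v = 0 := by
  rw [tp_curl, tri_eq_zero b ω w hX hu hv (by linarith), tri_eq_zero b ω w hX hu hv (by linarith),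
    tri_eq_zero b ω w hX hu hv (by linarith), tri_eq_zero b ω w hX hu hv (by linarith),
    tri_eq_zero b ω w hX hu hv (by linarith), tri_eq_zero b ω w hX hu hv (by linarith)]
  ring

/-- The trace orthogonal of `upT c`. -/
theorem orth_up [Module.Finite k V] {z : Fin 3 → Module.End k V} {c : ℤ}
    (h : ∀ v ∈ upT b ω w c, tp z v = 0) (i : Fin 3) : z i ∈ up b ω (1 - (c + w i)) := by
  apply up_of_trace
  intro M hM
  have h1 : (Pi.single i M : Fin 3 → Module.End k V) ∈ upT b ω w c := by
    intro j
    rcases eq_or_ne j i with rfl | hj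
    · rw [Pi.single_eq_same]
      exact hM
    · rw [Pi.single_eq_of_ne hj]
      exact Submodule.zero_mem _
  have h2 := h _ h1
  rw [tp_apply, Finset.sum_eq_single i] at h2
  · simpa using h2
  · intro j _ hj
    rw [Pi.single_eq_of_ne hj, mul_zero, map_zero]
  · intro hi
    exact absurd (Finset.mem_univ i) hi

/-- **Lifting implies even rank.** -/
theorem even_rank_of_lift [Module.Finite k V] (X : Fin 3 → Module.End k V)
    (hX : ∀ i, X i ∈ up b ω (w i)) (hodd : Odd (w 0 + w 1 + w 2))
    (hlift : ∀ j : ℤ, 2 * j < -(w 0 + w 1 + w 2) → ∀ u ∈ upT b ω w j,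
      (∀ i, curl X u i ∈ up b ω (j + 1 + (w 0 + w 1 + w 2) - w i)) →
      ∃ y ∈ LinearMap.ker (curl X), y - u ∈ upT b ω w (j + 1)) :
    Even (Module.finrank k (LinearMap.range (curl X))) := by
  obtain ⟨r, hr⟩ := hodd
  set c : ℤ := -r with hc
  let K : (Fin 3 → Module.End k V) →ₗ[k] (Fin 3 → Module.End k V) →ₗ[k] k := tp ∘ₗ curl X
  have hK : ∀ u v, K u v = tp (curl X u) v := fun u v => rfl
  have hker : LinearMap.ker K = LinearMap.ker (curl X) := by
    ext u
    rw [LinearMap.mem_ker, LinearMap.mem_ker]
    constructor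
    · intro h
      apply tp_nondeg
      intro v
      exact LinearMap.congr_fun h v
    · intro h
      refine LinearMap.ext fun v => ?_
      rw [hK, h, map_zero]
  have hrk : Module.finrank k (LinearMap.range K) = Module.finrank k (LinearMap.range (curl X)) := by
    have h1 := LinearMap.finrank_range_add_finrank_ker K
    have h2 := LinearMap.finrank_range_add_finrank_ker (curl X)
    rw [hker] at h1
    omega
  rw [← hrk]
  apply even_rank_of_isotropic K (fun u v => tp_curl_symm X u v) (upT b ω w c)
  · intro u hu v hv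
    exact isotropic b ω w hX (by omega) hu hv
  · intro u hu
    rw [hker]
    have hcu : ∀ i, curl X u i ∈ up b ω (1 - (c + w i)) := orth_up b ω w hu
    obtain ⟨m, hm⟩ := exists_upT b ω w u
    have key : ∀ (N : ℕ) (j : ℤ) (u : Fin 3 → Module.End k V), c ≤ j + N →
        u ∈ upT b ω w j → (∀ i, curl X u i ∈ up b ω (1 - (c + w i))) →
        u ∈ upT b ω w c ⊔ LinearMap.ker (curl X) := by
      intro N
      induction N with
      | zero =>
        intro j u hj hu _
        exact Submodule.mem_sup_left (upT_anti b ω w (by simpa using hj) hu)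
      | succ N ih =>
        intro j u hj hu hcu
        by_cases hjc : c ≤ j
        · exact Submodule.mem_sup_left (upT_anti b ω w hjc hu)
        · obtain ⟨y, hy, hyu⟩ := hlift j (by omega) u hu
            (fun i => up_anti b ω (by omega) (hcu i))
          have h1 := ih (j + 1) (y - u) (by push_cast at hj; omega) hyu (by
            intro i
            rw [map_sub, LinearMap.mem_ker.1 hy, zero_sub, Pi.neg_apply]
            exact Submodule.neg_mem _ (hcu i))
          have h2 : u = y - (y - u) := by abel
          rw [h2]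
          exact Submodule.sub_mem _ (Submodule.mem_sup_right hy) h1
    exact key (c - m).toNat m u (by omega) hm hcu

end fil

end Pool.Agent.H17.LF
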