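import Mathlib
import Pool.Agent.H17.LF.Lin

/-!
# Characteristic two
-/

set_option linter.unusedSectionVars false

open MvPolynomial

namespace Pool.Agent.H17.LF

open Pool.Agent.H13.Par

section alt

variable {k W : Type*} [Field k] [AddCommGroup W] [Module k W] [Module.Finite k W]

/-- An alternating form has even rank, in every characteristic. -/
theorem even_rank_of_alternating (B : W →ₗ[k] W →ₗ[k] k) (hB : ∀ u v, B u v = B v u)
    (halt : ∀ u, B u u = 0) : Even (Module.finrank k (LinearMap.range B)) := by
  let S : Set (Submodule k W) := {F | ∀ u ∈ F, ∀ v ∈ F, B u v = 0}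
  have hS : S.Nonempty := by
    refine ⟨⊥, ?_⟩
    intro u hu v _
    rw [(Submodule.mem_bot k).1 hu, map_zero, LinearMap.zero_apply]
  obtain ⟨F, hF, hmax⟩ := (wellFounded_gt : WellFounded
    ((· > ·) : Submodule k W → Submodule k W → Prop)).has_min S hS
  apply even_rank_of_isotropic B hB F hF
  intro u hu
  apply Submodule.mem_sup_left
  by_contra hn
  have h1 : F ⊔ Submodule.span k {u} ∈ S := by
    intro x hx y hy
    obtain ⟨x1, hx1, x2, hx2, rfl⟩ := Submodule.mem_sup.1 hx
    obtain ⟨y1, hy1, y2, hy2, rfl⟩ := Submodule.mem_sup.1 hy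
    obtain ⟨c, rfl⟩ := Submodule.mem_span_singleton.1 hx2
    obtain ⟨c', rfl⟩ := Submodule.mem_span_singleton.1 hy2
    have e1 : B x1 u = 0 := by rw [hB]; exact hu x1 hx1
    simp only [map_add, map_smul, LinearMap.add_apply, LinearMap.smul_apply, hF x1 hx1 y1 hy1,
      hu y1 hy1, e1, halt u, smul_zero, add_zero]
  apply hmax _ h1
  refine lt_of_le_of_ne le_sup_left ?_
  intro h
  apply hn
  rw [h]
  exact Submodule.mem_sup_right (Submodule.mem_span_singleton_self u)

end alt

section two

variable {k : Type*} [Field k]

theorem tp_curl_self {V : Type*} [AddCommGroup V] [Module k V] [Module.Finite k V]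
    (X u : Fin 3 → Module.End k V) (h2 : (2 : k) = 0) : tp (curl X u) u = 0 := by
  rw [tp_curl, tri_symm X u u 1 2 0, tri_symm X u u 2 0 1, tri_symm X u u 0 1 2]
  have : -tri X u u 1 0 2 - tri X u u 2 1 0 + -tri X u u 2 1 0 - tri X u u 0 2 1
      + -tri X u u 0 2 1 - tri X u u 1 0 2
      = (2 : k) * (-(tri X u u 1 0 2 + tri X u u 2 1 0 + tri X u u 0 2 1)) := by ring
  rw [this, h2, zero_mul]

/-- In characteristic two the parity statement holds for every ideal of finite colength. -/
theorem parity_char_two (h2 : (2 : k) = 0) (I : Ideal (MvPolynomial (Fin 3) k))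
    [Module.Finite k (MvPolynomial (Fin 3) k ⧸ I)] :
    Module.finrank k (I →ₗ[MvPolynomial (Fin 3) k] MvPolynomial (Fin 3) k ⧸ I)
      ≡ Module.finrank k (MvPolynomial (Fin 3) k ⧸ I) [MOD 2] := by
  let K : (Fin 3 → Module.End k (MvPolynomial (Fin 3) k ⧸ I)) →ₗ[k]
      (Fin 3 → Module.End k (MvPolynomial (Fin 3) k ⧸ I)) →ₗ[k] k := tp ∘ₗ curl (op I)
  have hK : ∀ u v, K u v = tp (curl (op I) u) v := fun u v => rfl
  have hker : LinearMap.ker K = LinearMap.ker (curl (op I)) := by
    ext u
    rw [LinearMap.mem_ker, LinearMap.mem_ker]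
    constructor
    · intro h
      apply tp_nondeg
      intro v
      exact LinearMap.congr_fun h v
    · intro h
      refine LinearMap.ext fun v => ?_
      rw [hK, h, map_zero]
  have hrk : Module.finrank k (LinearMap.range K)
      = Module.finrank k (LinearMap.range (curl (op I))) := by
    have h1 := LinearMap.finrank_range_add_finrank_ker K
    have h2 := LinearMap.finrank_range_add_finrank_ker (curl (op I))
    rw [hker] at h1
    omega
  obtain ⟨r, hr⟩ := even_rank_of_alternating K (fun u v => tp_curl_symm (op I) u v)
    (fun u => tp_curl_self (op I) u h2)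
  have h3 := finrank_hom_add_rank I
  rw [Nat.ModEq]
  omega

end two

section reduction

variable {O K : Type*} [CommRing O] [Field K] [Algebra O K]

/-- The extension of an ideal of `O[x₁,x₂,x₃]` to `K[x₁,x₂,x₃]`. -/
noncomputable def extend (K : Type*) [Field K] [Algebra O K]
    (P : Ideal (MvPolynomial (Fin 3) O)) : Ideal (MvPolynomial (Fin 3) K) :=
  P.map (MvPolynomial.map (algebraMap O K))

theorem finrank_extend (P : Ideal (MvPolynomial (Fin 3) O)) {ι : Type*} [Fintype ι]
    (b : Module.Basis ι O (MvPolynomial (Fin 3) O ⧸ P)) :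
    Module.Finite K (MvPolynomial (Fin 3) K ⧸ extend K P) ∧
    Module.finrank K (MvPolynomial (Fin 3) K ⧸ extend K P) = Fintype.card ι := by
  classical
  choose p hp using fun i => Ideal.Quotient.mk_surjective (b i)
  -- coordinates of monomials
  let c : (Fin 3 →₀ ℕ) → ι → O := fun e i => b.repr (Ideal.Quotient.mk P (monomial e 1)) i
  let ℓ : MvPolynomial (Fin 3) K →ₗ[K] (ι → K) :=
    (MvPolynomial.basisMonomials (Fin 3) K).constr K fun e i => algebraMap O K (c e i)
  have hℓm : ∀ e, ℓ (monomial e 1) = fun i => algebraMap O K (c e i) := by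
    intro e
    have := (MvPolynomial.basisMonomials (Fin 3) K).constr_basis K
      (fun e i => algebraMap O K (c e i)) e
    rwa [MvPolynomial.coe_basisMonomials] at this
  have hℓ : ∀ q : MvPolynomial (Fin 3) O, ℓ (MvPolynomial.map (algebraMap O K) q)
      = fun i => algebraMap O K (b.repr (Ideal.Quotient.mk P q) i) := by
    intro q
    induction q using MvPolynomial.induction_on' with
    | monomial e a =>
      have h1 : (monomial e a : MvPolynomial (Fin 3) O) = a • monomial e 1 := by
        rw [smul_monomial, smul_eq_mul, mul_one]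
      have h2 : MvPolynomial.map (algebraMap O K) (monomial e a : MvPolynomial (Fin 3) O)
          = algebraMap O K a • monomial e 1 := by
        rw [MvPolynomial.map_monomial, smul_monomial, smul_eq_mul, mul_one]
      rw [h2, map_smul, hℓm, h1]
      have h3 : Ideal.Quotient.mk P (a • (monomial e 1 : MvPolynomial (Fin 3) O))
          = a • Ideal.Quotient.mk P (monomial e 1) := rfl
      rw [h3, map_smul]
      funext i
      rw [Pi.smul_apply, Finsupp.smul_apply, smul_eq_mul, smul_eq_mul, map_mul]
    | add q r hq hr =>
      rw [map_add, map_add, hq, hr, map_add, map_add]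
      funext i
      rw [Pi.add_apply, Finsupp.add_apply, map_add]
  -- the kernel contains the extension
  have hsub : (extend K P).restrictScalars K ≤ LinearMap.ker ℓ := by
    have h1 : ∀ r : MvPolynomial (Fin 3) K, ∀ q ∈ P, ℓ (r * MvPolynomial.map (algebraMap O K) q) = 0 := by
      intro r q hq
      induction r using MvPolynomial.induction_on' with
      | monomial e a =>
        have h2 : (monomial e a : MvPolynomial (Fin 3) K) * MvPolynomial.map (algebraMap O K) q
            = a • MvPolynomial.map (algebraMap O K) (monomial e 1 * q) := by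
          rw [map_mul, MvPolynomial.map_monomial, map_one, ← smul_mul_assoc, smul_monomial,
            smul_eq_mul, mul_one]
        rw [h2, map_smul, hℓ, Ideal.Quotient.eq_zero_iff_mem.2 (P.mul_mem_left _ hq), map_zero]
        funext i
        simp
      | add r s hr hs => rw [add_mul, map_add, hr, hs, add_zero]
    have h5 : ∀ x ∈ Ideal.span (MvPolynomial.map (algebraMap O K) ''
        (P : Set (MvPolynomial (Fin 3) O))), ∀ r : MvPolynomial (Fin 3) K, ℓ (r * x) = 0 := by
      intro x hx
      induction hx using Submodule.span_induction with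
      | mem x hx =>
        obtain ⟨q, hq, rfl⟩ := hx
        exact fun r => h1 r q hq
      | zero => intro r; rw [mul_zero, map_zero]
      | add x y _ _ ihx ihy => intro r; rw [mul_add, map_add, ihx r, ihy r, add_zero]
      | smul s x _ ih => intro r; rw [smul_eq_mul, ← mul_assoc]; exact ih (r * s)
    intro f hf
    rw [LinearMap.mem_ker]
    have h6 := h5 f hf 1
    rwa [one_mul] at h6
  -- every polynomial is congruent to a combination of the lifts
  have hcong : ∀ f : MvPolynomial (Fin 3) K,
      f - ∑ i, ℓ f i • MvPolynomial.map (algebraMap O K) (p i) ∈ extend K P := by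
    intro f
    induction f using MvPolynomial.induction_on' with
    | monomial e a =>
      have h1 : (monomial e a : MvPolynomial (Fin 3) K) = a • monomial e 1 := by
        rw [smul_monomial, smul_eq_mul, mul_one]
      have h2 : (monomial e (1 : O) : MvPolynomial (Fin 3) O) - ∑ i, c e i • p i ∈ P := by
        rw [← Ideal.Quotient.eq, map_sum]
        conv_lhs => rw [← b.sum_repr (Ideal.Quotient.mk P (monomial e 1))]
        refine Finset.sum_congr rfl fun i _ => ?_
        rw [← hp i]
        rfl
      have h3 : MvPolynomial.map (algebraMap O K) ((monomial e (1 : O) : MvPolynomial (Fin 3) O)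
          - ∑ i, c e i • p i) ∈ extend K P := Ideal.mem_map_of_mem _ h2
      have h4 : (monomial e a : MvPolynomial (Fin 3) K)
          - ∑ i, ℓ (monomial e a) i • MvPolynomial.map (algebraMap O K) (p i)
          = C a * MvPolynomial.map (algebraMap O K)
            ((monomial e (1 : O) : MvPolynomial (Fin 3) O) - ∑ i, c e i • p i) := by
        rw [h1, map_smul, hℓm, map_sub (MvPolynomial.map (algebraMap O K)),
          map_sum (MvPolynomial.map (algebraMap O K)), MvPolynomial.map_monomial,
          show algebraMap O K 1 = 1 from map_one _, ← MvPolynomial.smul_eq_C_mul, smul_sub,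
          Finset.smul_sum]
        congr 1
        refine Finset.sum_congr rfl fun i _ => ?_
        rw [Pi.smul_apply, smul_eq_mul, MvPolynomial.smul_eq_C_mul (p i) (c e i),
          map_mul (MvPolynomial.map (algebraMap O K)),
          MvPolynomial.map_C, ← MvPolynomial.smul_eq_C_mul, smul_smul]
      rw [h4]
      exact Ideal.mul_mem_left _ _ h3
    | add f g hf hg =>
      have h1 : f + g - ∑ i, ℓ (f + g) i • MvPolynomial.map (algebraMap O K) (p i)
          = (f - ∑ i, ℓ f i • MvPolynomial.map (algebraMap O K) (p i))
            + (g - ∑ i, ℓ g i • MvPolynomial.map (algebraMap O K) (p i)) := by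
        simp only [map_add, Pi.add_apply, add_smul, Finset.sum_add_distrib]
        ring
      rw [h1]
      exact Ideal.add_mem _ hf hg
  -- the resulting isomorphism
  let L : (MvPolynomial (Fin 3) K ⧸ extend K P) →ₗ[K] (ι → K) :=
    ((extend K P).restrictScalars K).liftQ ℓ hsub
  have hL : ∀ f, L (Ideal.Quotient.mk (extend K P) f) = ℓ f := fun f => rfl
  have hinj : Function.Injective L := by
    rw [injective_iff_map_eq_zero]
    intro v hv
    obtain ⟨f, rfl⟩ := Ideal.Quotient.mk_surjective v
    rw [hL] at hv
    have h1 := hcong f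
    rw [hv] at h1
    simp only [Pi.zero_apply, zero_smul, Finset.sum_const_zero, sub_zero] at h1
    exact Ideal.Quotient.eq_zero_iff_mem.2 h1
  have hsurj : Function.Surjective L := by
    intro a
    refine ⟨Ideal.Quotient.mk _ (∑ i, a i • MvPolynomial.map (algebraMap O K) (p i)), ?_⟩
    rw [hL, map_sum]
    funext i
    rw [Finset.sum_apply, Finset.sum_eq_single i]
    · rw [map_smul, hℓ, Pi.smul_apply, hp, b.repr_self, Finsupp.single_eq_same, map_one,
        smul_eq_mul, mul_one]
    · intro j _ hj
      rw [map_smul, hℓ, Pi.smul_apply, hp, b.repr_self, Finsupp.single_eq_of_ne hj.symm, map_zero,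
        smul_zero]
    · intro h
      exact absurd (Finset.mem_univ i) h
  let E := LinearEquiv.ofBijective L ⟨hinj, hsurj⟩
  refine ⟨Module.Finite.equiv E.symm, ?_⟩
  rw [LinearEquiv.finrank_eq E, Module.finrank_fintype_fun_eq_card]

end reduction

end Pool.Agent.H17.LF
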