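import Mathlib
import Pool.Agent.H17.LF.Lin

/-!
# Symbols of endomorphisms and the parity of ranks for even total weight
-/

set_option linter.unusedSectionVars false

namespace Pool.Agent.H17.LF

open Pool.Agent.H13.Par

section bil

variable {k W : Type*} [Field k] [AddCommGroup W] [Module k W] [Module.Finite k W]

/-- The rank of a symmetric form modulo two can be read off on `F^⊥` modulo the radical. -/
theorem rank_mod_two (B : W →ₗ[k] W →ₗ[k] k) (hB : ∀ u v, B u v = B v u)
    (F G : Submodule k W) (hFG : F ≤ G) (hF : ∀ u ∈ F, ∀ v ∈ G, B u v = 0)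
    (hG : ∀ u, (∀ v ∈ F, B u v = 0) → u ∈ G ⊔ LinearMap.ker B) :
    Module.finrank k (LinearMap.range B) ≡
      Module.finrank k (LinearMap.range (B.compl₁₂ G.subtype G.subtype)) [MOD 2] := by
  have hrefl : LinearMap.BilinForm.IsRefl B := fun u v h => by rw [hB]; exact h
  set K := LinearMap.ker B with hKdef
  have hK : ∀ u, u ∈ K → ∀ v, B v u = 0 := by
    intro u hu v
    rw [hB, LinearMap.mem_ker.1 hu, LinearMap.zero_apply]
  have h2 : LinearMap.BilinForm.orthogonal B F = G ⊔ K := by
    apply le_antisymm
    · intro u hu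
      apply hG
      intro v hv
      rw [hB]
      exact hu v hv
    · apply sup_le
      · intro u hu v hv
        exact hF v hv u hu
      · intro u hu v _
        exact hK u hu v
  have h3 : LinearMap.BilinForm.orthogonal B ⊤ = K := by
    ext u
    rw [hKdef, LinearMap.mem_ker]
    constructor
    · intro h
      refine LinearMap.ext fun v => ?_
      rw [hB]
      exact h v trivial
    · intro h v _
      change B v u = 0
      rw [hB, h, LinearMap.zero_apply]
  have h1 := LinearMap.BilinForm.finrank_add_finrank_orthogonal (B := B) hrefl F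
  have h1' := LinearMap.BilinForm.finrank_add_finrank_orthogonal (B := B) hrefl (G ⊔ K)
  rw [h2, h3] at h1
  rw [h3] at h1'
  have h4 := Submodule.finrank_sup_add_finrank_inf_eq F K
  have h5 := Submodule.finrank_sup_add_finrank_inf_eq G K
  have h6 := LinearMap.finrank_range_add_finrank_ker B
  rw [← hKdef] at h6
  have h7 : (G ⊔ K) ⊓ K = K := inf_eq_right.2 le_sup_right
  rw [h7] at h1'
  -- the double orthogonal
  have h8 : F ⊔ K ≤ LinearMap.BilinForm.orthogonal B (G ⊔ K) := by
    apply sup_le
    · intro u hu v hv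
      obtain ⟨p, hp, q, hq, rfl⟩ := Submodule.mem_sup.1 hv
      change B (p + q) u = 0
      rw [hB, map_add, hF u hu p hp, hK q hq, add_zero]
    · intro u hu v _
      exact hK u hu v
  have h9 : F ⊔ K = LinearMap.BilinForm.orthogonal B (G ⊔ K) := by
    apply Submodule.eq_of_le_of_finrank_eq h8
    omega
  -- the kernel of the restriction
  have h10 : (LinearMap.ker (B.compl₁₂ G.subtype G.subtype)).map G.subtype = F ⊔ (G ⊓ K) := by
    apply le_antisymm
    · rintro _ ⟨u, hu, rfl⟩
      have hu' := LinearMap.mem_ker.1 hu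
      have h11 : (u : W) ∈ F ⊔ K := by
        rw [h9]
        intro v hv
        obtain ⟨p, hp, q, hq, rfl⟩ := Submodule.mem_sup.1 hv
        change B (p + q) u = 0
        rw [hB, map_add, hK q hq, add_zero]
        exact LinearMap.congr_fun hu' ⟨p, hp⟩
      obtain ⟨p, hp, q, hq, hpq⟩ := Submodule.mem_sup.1 h11
      change (u : W) ∈ _
      rw [← hpq]
      refine Submodule.add_mem _ (Submodule.mem_sup_left hp) (Submodule.mem_sup_right ⟨?_, hq⟩)
      have : q = (u : W) - p := by rw [← hpq]; abel
      rw [this]
      exact Submodule.sub_mem _ u.2 (hFG hp)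
    · apply sup_le
      · intro u hu
        refine ⟨⟨u, hFG hu⟩, ?_, rfl⟩
        rw [SetLike.mem_coe, LinearMap.mem_ker]
        refine LinearMap.ext fun v => ?_
        exact hF u hu v v.2
      · rintro u ⟨hu, hu2⟩
        refine ⟨⟨u, hu⟩, ?_, rfl⟩
        rw [SetLike.mem_coe, LinearMap.mem_ker]
        refine LinearMap.ext fun v => ?_
        change B u v = 0
        rw [hB]
        exact hK u hu2 v
  have h12 := LinearMap.finrank_range_add_finrank_ker (B.compl₁₂ G.subtype G.subtype)
  have h13 : Module.finrank k (LinearMap.ker (B.compl₁₂ G.subtype G.subtype))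
      = Module.finrank k (F ⊔ (G ⊓ K) : Submodule k W) := by
    rw [← h10]
    exact (LinearEquiv.finrank_eq (Submodule.equivMapOfInjective _ G.subtype_injective _))
  have h14 := Submodule.finrank_sup_add_finrank_inf_eq F (G ⊓ K)
  have h15 : F ⊓ (G ⊓ K) = F ⊓ K := by rw [← inf_assoc, inf_eq_left.2 hFG]
  rw [h15] at h14
  rw [h13] at h12
  rw [Nat.ModEq]
  omega

end bil

section gr

variable {k V V' κ : Type*} [Field k] [AddCommGroup V] [Module k V] [AddCommGroup V'] [Module k V']
  [Fintype κ] (b : Module.Basis κ k V) (b' : Module.Basis κ k V') (ω : κ → ℤ)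

/-- The symbol of degree `n`. -/
noncomputable def syg (n : ℤ) : V →ₗ[k] V' := b.constr k fun e => if ω e = n then b' e else 0

theorem syg_basis (n : ℤ) (e : κ) : syg b b' ω n (b e) = if ω e = n then b' e else 0 := by
  rw [syg, Module.Basis.constr_basis]

theorem syg_repr (n : ℤ) (v : V) (e : κ) :
    b'.repr (syg b b' ω n v) e = if ω e = n then b.repr v e else 0 := by
  classical
  rw [syg, Module.Basis.constr_apply_fintype, map_sum, Finsupp.finsetSum_apply,
    Finset.sum_eq_single e]
  · rw [map_smul, Finsupp.smul_apply, Module.Basis.equivFun_apply]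
    split_ifs with h
    · rw [b'.repr_self, Finsupp.single_eq_same, smul_eq_mul, mul_one]
    · rw [map_zero, Finsupp.zero_apply, smul_zero]
  · intro e' _ he'
    rw [map_smul, Finsupp.smul_apply]
    split_ifs with h
    · rw [b'.repr_self, Finsupp.single_eq_of_ne he'.symm, smul_zero]
    · rw [map_zero, Finsupp.zero_apply, smul_zero]
  · intro h
    exact absurd (Finset.mem_univ e) h

theorem syg_eq_zero {n : ℤ} {v : V} (hv : v ∈ fil b ω (n + 1)) : syg b b' ω n v = 0 := by
  apply b'.repr.injective
  ext e
  rw [syg_repr, map_zero, Finsupp.zero_apply]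
  split_ifs with h
  · exact hv e (by omega)
  · rfl

/-- The symbol of degree `m` of an endomorphism. -/
noncomputable def grg (m : ℤ) : Module.End k V →ₗ[k] Module.End k V' where
  toFun A := b'.constr k fun e => syg b b' ω (ω e + m) (A (b e))
  map_add' A B := by
    apply b'.ext
    intro e
    rw [LinearMap.add_apply, Module.Basis.constr_basis, Module.Basis.constr_basis,
      Module.Basis.constr_basis, LinearMap.add_apply, map_add]
  map_smul' c A := by
    apply b'.ext
    intro e
    rw [RingHom.id_apply, LinearMap.smul_apply, Module.Basis.constr_basis,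
      Module.Basis.constr_basis, LinearMap.smul_apply, map_smul]

theorem grg_basis (m : ℤ) (A : Module.End k V) (e : κ) :
    grg b b' ω m A (b' e) = syg b b' ω (ω e + m) (A (b e)) := by
  exact Module.Basis.constr_basis b' k _ e

theorem grg_sy {m n : ℤ} {A : Module.End k V} (hA : A ∈ up b ω m) {v : V} (hv : v ∈ fil b ω n) :
    grg b b' ω m A (syg b b' ω n v) = syg b b' ω (n + m) (A v) := by
  classical
  conv_rhs => rw [← b.sum_repr v]
  conv_lhs => rw [← b.sum_repr v]
  rw [map_sum, map_sum, map_sum, map_sum]
  refine Finset.sum_congr rfl fun e _ => ?_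
  rw [map_smul, map_smul, map_smul, map_smul, syg_basis]
  rcases lt_trichotomy (ω e) n with h | h | h
  · rw [hv e h, zero_smul, zero_smul]
  · rw [if_pos h, grg_basis, h]
  · rw [if_neg (by omega), map_zero, smul_zero]
    have h1 : syg b b' ω (n + m) (A (b e)) = 0 := by
      apply syg_eq_zero
      exact fil_anti b ω (by omega) (hA _ _ (basis_mem_fil b ω e))
    rw [h1, smul_zero]

theorem grg_mul {m n : ℤ} {A B : Module.End k V} (hA : A ∈ up b ω m) (hB : B ∈ up b ω n) :
    grg b b' ω (n + m) (A * B) = grg b b' ω m A * grg b b' ω n B := by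
  apply b'.ext
  intro e
  have h1 := hB _ _ (basis_mem_fil b ω e)
  rw [Module.End.mul_apply, grg_basis, grg_basis, grg_sy b b' ω hA h1, Module.End.mul_apply,
    add_assoc]

theorem trace_grg (A : Module.End k V) :
    LinearMap.trace k V' (grg b b' ω 0 A) = LinearMap.trace k V A := by
  classical
  rw [LinearMap.trace_eq_matrix_trace k b A, LinearMap.trace_eq_matrix_trace k b',
    Matrix.trace, Matrix.trace]
  refine Finset.sum_congr rfl fun e _ => ?_
  rw [Matrix.diag_apply, Matrix.diag_apply, LinearMap.toMatrix_apply, LinearMap.toMatrix_apply,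
    grg_basis, syg_repr, if_pos (by omega)]

variable (w : Fin 3 → ℤ)

/-- The symbol of degree `c` of a triple. -/
noncomputable def grT (c : ℤ) : (Fin 3 → Module.End k V) →ₗ[k] (Fin 3 → Module.End k V') where
  toFun u i := grg b b' ω (c + w i) (u i)
  map_add' u v := funext fun i => by rw [Pi.add_apply, map_add]; rfl
  map_smul' c u := funext fun i => by rw [Pi.smul_apply, map_smul]; rfl

theorem grT_apply (c : ℤ) (u : Fin 3 → Module.End k V) (i : Fin 3) :
    grT b b' ω w c u i = grg b b' ω (c + w i) (u i) := rfl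

theorem tri_gr {X u v : Fin 3 → Module.End k V} (hX : ∀ i, X i ∈ up b ω (w i)) {c : ℤ}
    (hu : u ∈ upT b ω w c) (hv : v ∈ upT b ω w c) {i j l : Fin 3}
    (h : 2 * c + (w i + w j + w l) = 0) :
    tri X u v i j l = tri (fun i => grg b b' ω (w i) (X i)) (grT b b' ω w c u)
      (grT b b' ω w c v) i j l := by
  have e1 : grg b b' ω (c + w j + w i) (X i * u j)
      = grg b b' ω (w i) (X i) * grg b b' ω (c + w j) (u j) := grg_mul b b' ω (hX i) (hu j)
  have e2 : grg b b' ω (w i + (c + w j)) (u j * X i)
      = grg b b' ω (c + w j) (u j) * grg b b' ω (w i) (X i) := grg_mul b b' ω (hu j) (hX i)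
  have h1 : X i * u j - u j * X i ∈ up b ω (c + w j + w i) := by
    apply Submodule.sub_mem
    · exact mul_mem_up b ω (hX i) (hu j)
    · have := mul_mem_up b ω (hu j) (hX i)
      rwa [add_comm (w i)] at this
  have e3 := grg_mul b b' ω h1 (hv l)
  rw [show c + w l + (c + w j + w i) = 0 by linarith] at e3
  rw [tri, tri, ← trace_grg b b' ω, e3, map_sub, e1, add_comm (c + w j) (w i), e2]
  rfl

theorem tp_gr {X u v : Fin 3 → Module.End k V} [Module.Finite k V] [Module.Finite k V']
    (hX : ∀ i, X i ∈ up b ω (w i)) {c : ℤ}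
    (hc : 2 * c + (w 0 + w 1 + w 2) = 0)
    (hu : u ∈ upT b ω w c) (hv : v ∈ upT b ω w c) :
    tp (curl X u) v = tp (curl (fun i => grg b b' ω (w i) (X i)) (grT b b' ω w c u))
      (grT b b' ω w c v) := by
  rw [tp_curl, tp_curl, tri_gr b b' ω w hX hu hv (by linarith),
    tri_gr b b' ω w hX hu hv (by linarith), tri_gr b b' ω w hX hu hv (by linarith),
    tri_gr b b' ω w hX hu hv (by linarith), tri_gr b b' ω w hX hu hv (by linarith),
    tri_gr b b' ω w hX hu hv (by linarith)]

/-- Triples which are homogeneous of degree `c`. -/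
def hoT (c : ℤ) : Submodule k (Fin 3 → Module.End k V') where
  carrier := {u | ∀ i e e', ω e' ≠ ω e + (c + w i) → b'.repr (u i (b' e)) e' = 0}
  add_mem' := by
    intro u v hu hv i e e' h
    rw [Pi.add_apply, LinearMap.add_apply, map_add, Finsupp.add_apply, hu i e e' h, hv i e e' h,
      add_zero]
  zero_mem' := by
    intro i e e' _
    rw [Pi.zero_apply, LinearMap.zero_apply, map_zero, Finsupp.zero_apply]
  smul_mem' := by
    intro c u hu i e e' h
    rw [Pi.smul_apply, LinearMap.smul_apply, map_smul, Finsupp.smul_apply, hu i e e' h, smul_zero]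

theorem grT_mem_hoT (c : ℤ) (u : Fin 3 → Module.End k V) :
    grT b b' ω w c u ∈ hoT b' ω w c := by
  intro i e e' h
  rw [grT_apply, grg_basis, syg_repr, if_neg h]

theorem exists_grT {c : ℤ} {u : Fin 3 → Module.End k V'} (hu : u ∈ hoT b' ω w c) :
    ∃ y ∈ upT b ω w c, grT b b' ω w c y = u := by
  classical
  let y : Fin 3 → Module.End k V := fun i =>
    b.constr k fun e => ∑ e', b'.repr (u i (b' e)) e' • b e'
  have hy : ∀ i e, y i (b e) = ∑ e', b'.repr (u i (b' e)) e' • b e' := fun i e =>
    Module.Basis.constr_basis _ _ _ _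
  refine ⟨y, ?_, ?_⟩
  · intro i
    apply up_of_basis
    intro e
    rw [hy]
    refine Submodule.sum_mem _ fun e' _ => ?_
    by_cases h : ω e' = ω e + (c + w i)
    · refine Submodule.smul_mem _ _ ?_
      rw [← h]
      exact basis_mem_fil b ω e'
    · rw [hu i e e' h, zero_smul]
      exact Submodule.zero_mem _
  · funext i
    apply b'.ext
    intro e
    rw [grT_apply, grg_basis, hy, map_sum]
    conv_rhs => rw [← b'.sum_repr (u i (b' e))]
    refine Finset.sum_congr rfl fun e' _ => ?_
    rw [map_smul, syg_basis]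
    by_cases h : ω e' = ω e + (c + w i)
    · rw [if_pos h]
    · rw [hu i e e' h, zero_smul, zero_smul]

/-- The rank of the form on the homogeneous triples of degree `c`. -/
noncomputable def homRank (X : Fin 3 → Module.End k V') (c : ℤ) : ℕ :=
  Module.finrank k (LinearMap.range
    (((tp : (Fin 3 → Module.End k V') →ₗ[k] (Fin 3 → Module.End k V') →ₗ[k] k) ∘ₗ curl X).compl₁₂
      (hoT b' ω w c).subtype (hoT b' ω w c).subtype))

/-- The rank of the curl modulo two in the even case. -/
theorem rank_curl_mod [Module.Finite k V] [Module.Finite k V'] (X : Fin 3 → Module.End k V)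
    (hX : ∀ i, X i ∈ up b ω (w i)) {c : ℤ} (hc : 2 * c + (w 0 + w 1 + w 2) = 0)
    (hlift : ∀ j : ℤ, 2 * j < -(w 0 + w 1 + w 2) → ∀ u ∈ upT b ω w j,
      (∀ i, curl X u i ∈ up b ω (j + 1 + (w 0 + w 1 + w 2) - w i)) →
      ∃ y ∈ LinearMap.ker (curl X), y - u ∈ upT b ω w (j + 1)) :
    Module.finrank k (LinearMap.range (curl X)) ≡
      homRank b' ω w (fun i => grg b b' ω (w i) (X i)) c [MOD 2] := by
  let K : (Fin 3 → Module.End k V) →ₗ[k] (Fin 3 → Module.End k V) →ₗ[k] k := tp ∘ₗ curl X
  have hK : ∀ u v, K u v = tp (curl X u) v := fun u v => rfl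
  have hker : LinearMap.ker K = LinearMap.ker (curl X) := by
    ext u
    rw [LinearMap.mem_ker, LinearMap.mem_ker]
    constructor
    · intro h
      apply tp_nondeg
      intro v
      exact LinearMap.congr_fun h v
    · intro h
      refine LinearMap.ext fun v => ?_
      rw [hK, h, map_zero]
  have hrk : Module.finrank k (LinearMap.range K) = Module.finrank k (LinearMap.range (curl X)) := by
    have h1 := LinearMap.finrank_range_add_finrank_ker K
    have h2 := LinearMap.finrank_range_add_finrank_ker (curl X)
    rw [hker] at h1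
    omega
  rw [← hrk]
  have hGH : Module.finrank k (LinearMap.range (K.compl₁₂ (upT b ω w c).subtype
      (upT b ω w c).subtype)) = homRank b' ω w (fun i => grg b b' ω (w i) (X i)) c := by
    set K' : (Fin 3 → Module.End k V') →ₗ[k] (Fin 3 → Module.End k V') →ₗ[k] k :=
      tp ∘ₗ curl (fun i => grg b b' ω (w i) (X i)) with hK'
    let π : upT b ω w c →ₗ[k] hoT b' ω w c :=
      ((grT b b' ω w c).comp (upT b ω w c).subtype).codRestrict _
        (fun u => grT_mem_hoT b b' ω w c u)
    have hπ : Function.Surjective π := by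
      rintro ⟨u, hu⟩
      obtain ⟨y, hy, hyu⟩ := exists_grT b b' ω w hu
      exact ⟨⟨y, hy⟩, Subtype.ext hyu⟩
    have h1 : K.compl₁₂ (upT b ω w c).subtype (upT b ω w c).subtype
        = (K'.compl₁₂ (hoT b' ω w c).subtype (hoT b' ω w c).subtype).compl₁₂ π π := by
      refine LinearMap.ext fun u => LinearMap.ext fun v => ?_
      exact tp_gr b b' ω w hX hc u.2 v.2
    have h2 : (K'.compl₁₂ (hoT b' ω w c).subtype (hoT b' ω w c).subtype).compl₁₂ π π
        = π.dualMap ∘ₗ ((K'.compl₁₂ (hoT b' ω w c).subtype (hoT b' ω w c).subtype) ∘ₗ π) := by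
      refine LinearMap.ext fun u => LinearMap.ext fun v => ?_
      rfl
    rw [h1, h2, LinearMap.range_comp, LinearMap.range_comp, LinearMap.range_eq_top.2 hπ,
      Submodule.map_top]
    exact (LinearEquiv.finrank_eq (Submodule.equivMapOfInjective _
      (LinearMap.dualMap_injective_of_surjective hπ) _)).symm
  rw [← hGH]
  apply rank_mod_two K (fun u v => tp_curl_symm X u v) (upT b ω w (c + 1)) (upT b ω w c)
    (upT_anti b ω w (by omega))
  · intro u hu v hv
    -- a form between degrees `c + 1` and `c`
    rw [hK, tp_curl]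
    have hz : ∀ i j l : Fin 3, w i + w j + w l = w 0 + w 1 + w 2 → tri X u v i j l = 0 := by
      intro i j l hijl
      rw [tri]
      apply trace_eq_zero_of_up b ω
      have h1 : X i * u j - u j * X i ∈ up b ω (c + 1 + w j + w i) := by
        apply Submodule.sub_mem
        · exact mul_mem_up b ω (hX i) (hu j)
        · have := mul_mem_up b ω (hu j) (hX i)
          rwa [add_comm (w i)] at this
      exact up_anti b ω (by linarith) (mul_mem_up b ω h1 (hv l))
    rw [hz 1 2 0 (by ring), hz 2 1 0 (by ring), hz 2 0 1 (by ring), hz 0 2 1 (by ring),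
      hz 0 1 2 (by ring), hz 1 0 2 (by ring)]
    ring
  · intro u hu
    rw [hker]
    have hcu : ∀ i, curl X u i ∈ up b ω (1 - (c + 1 + w i)) := orth_up b ω w hu
    obtain ⟨m, hm⟩ := exists_upT b ω w u
    have key : ∀ (N : ℕ) (j : ℤ) (u : Fin 3 → Module.End k V), c ≤ j + N →
        u ∈ upT b ω w j → (∀ i, curl X u i ∈ up b ω (1 - (c + 1 + w i))) →
        u ∈ upT b ω w c ⊔ LinearMap.ker (curl X) := by
      intro N
      induction N with
      | zero =>
        intro j u hj hu _
        exact Submodule.mem_sup_left (upT_anti b ω w (by simpa using hj) hu)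
      | succ N ih =>
        intro j u hj hu hcu
        by_cases hjc : c ≤ j
        · exact Submodule.mem_sup_left (upT_anti b ω w hjc hu)
        · obtain ⟨y, hy, hyu⟩ := hlift j (by omega) u hu
            (fun i => up_anti b ω (by omega) (hcu i))
          have h1 := ih (j + 1) (y - u) (by push_cast at hj; omega) hyu (by
            intro i
            rw [map_sub, LinearMap.mem_ker.1 hy, zero_sub, Pi.neg_apply]
            exact Submodule.neg_mem _ (hcu i))
          have h2 : u = y - (y - u) := by abel
          rw [h2]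
          exact Submodule.sub_mem _ (Submodule.mem_sup_right hy) h1
    exact key (c - m).toNat m u (by omega) hm hcu

end gr

end Pool.Agent.H17.LF
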