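import Mathlib

/-!
# Initial ideals for integer weights and monomial bases
-/

set_option linter.unusedSectionVars false

open MvPolynomial

namespace Pool.Agent.H17.LF

section order

variable {k : Type*} [Field k] (w : Fin 3 → ℤ)

/-- The polynomials all of whose components of weight `< n` vanish. -/
def ord (n : ℤ) : Submodule k (MvPolynomial (Fin 3) k) where
  carrier := {p | ∀ m < n, weightedHomogeneousComponent w m p = 0}
  add_mem' := fun hp hq m hm => by rw [map_add, hp m hm, hq m hm, add_zero]
  zero_mem' := fun m _ => map_zero _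
  smul_mem' := fun c p hp m hm => by rw [map_smul, hp m hm, smul_zero]

theorem mem_ord {n : ℤ} {p : MvPolynomial (Fin 3) k} :
    p ∈ ord w n ↔ ∀ m < n, weightedHomogeneousComponent w m p = 0 := Iff.rfl

theorem mem_ord_iff {n : ℤ} {p : MvPolynomial (Fin 3) k} :
    p ∈ ord w n ↔ ∀ e, Finsupp.weight w e < n → coeff e p = 0 := by
  constructor
  · intro h e he
    have h1 := congrArg (coeff e) (h _ he)
    rwa [coeff_weightedHomogeneousComponent, if_pos rfl, coeff_zero] at h1
  · intro h m hm
    ext e
    rw [coeff_weightedHomogeneousComponent, coeff_zero]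
    split_ifs with h2
    · exact h e (by omega)
    · rfl

theorem ord_anti {m n : ℤ} (h : m ≤ n) : ord (k := k) w n ≤ ord w m :=
  fun _ hp l hl => hp l (by omega)

theorem comp_monomial_mul (n : ℤ) (e : Fin 3 →₀ ℕ) (c : k) (p : MvPolynomial (Fin 3) k) :
    weightedHomogeneousComponent w n (monomial e c * p)
      = monomial e c * weightedHomogeneousComponent w (n - Finsupp.weight w e) p := by
  classical
  ext d
  rw [coeff_weightedHomogeneousComponent, coeff_monomial_mul', coeff_monomial_mul']
  by_cases h : e ≤ d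
  · rw [if_pos h, if_pos h, coeff_weightedHomogeneousComponent]
    have h1 : Finsupp.weight w d = Finsupp.weight w (d - e) + Finsupp.weight w e := by
      rw [← map_add, tsub_add_cancel_of_le h]
    by_cases h2 : Finsupp.weight w d = n
    · rw [if_pos h2, if_pos (by omega)]
    · rw [if_neg h2, if_neg (by omega), mul_zero]
  · rw [if_neg h, if_neg h, ite_self]

theorem monomial_mul_mem_ord {n : ℤ} {e : Fin 3 →₀ ℕ} {c : k} {p : MvPolynomial (Fin 3) k}
    (hp : p ∈ ord w n) : monomial e c * p ∈ ord w (n + Finsupp.weight w e) := by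
  intro m hm
  rw [comp_monomial_mul, hp _ (by omega), mul_zero]

theorem comp_X_mul (n : ℤ) (i : Fin 3) (p : MvPolynomial (Fin 3) k) :
    weightedHomogeneousComponent w (n + w i) (X i * p)
      = X i * weightedHomogeneousComponent w n p := by
  have h := comp_monomial_mul w (n + w i) (Finsupp.single i 1) (1 : k) p
  rw [Finsupp.weight_single, one_smul, add_sub_cancel_right] at h
  exact h

theorem X_mul_mem_ord {n : ℤ} (i : Fin 3) {p : MvPolynomial (Fin 3) k}
    (hp : p ∈ ord w n) : X i * p ∈ ord w (n + w i) := by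
  have h := monomial_mul_mem_ord w (e := Finsupp.single i 1) (c := (1 : k)) hp
  rw [Finsupp.weight_single, one_smul] at h
  exact h

theorem monomial_mem_ord (e : Fin 3 →₀ ℕ) (c : k) :
    (monomial e c : MvPolynomial (Fin 3) k) ∈ ord w (Finsupp.weight w e) := by
  classical
  rw [mem_ord_iff]
  intro d hd
  rw [coeff_monomial, if_neg]
  rintro rfl
  omega

theorem comp_monomial (n : ℤ) (e : Fin 3 →₀ ℕ) (c : k) :
    weightedHomogeneousComponent w n (monomial e c : MvPolynomial (Fin 3) k)
      = if Finsupp.weight w e = n then monomial e c else 0 := by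
  classical
  ext d
  rw [coeff_weightedHomogeneousComponent]
  by_cases h : Finsupp.weight w e = n
  · rw [if_pos h, coeff_monomial]
    by_cases h2 : e = d
    · subst h2
      rw [if_pos rfl, if_pos h]
    · rw [if_neg h2, ite_self]
  · rw [if_neg h, coeff_zero, coeff_monomial]
    by_cases h2 : e = d
    · subst h2
      rw [if_neg h]
    · rw [if_neg h2, ite_self]

theorem exists_mem_ord (p : MvPolynomial (Fin 3) k) : ∃ n : ℤ, p ∈ ord w n := by
  classical
  induction p using MvPolynomial.induction_on' with
  | monomial e c => exact ⟨_, monomial_mem_ord w e c⟩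
  | add p q hp hq =>
    obtain ⟨m, hm⟩ := hp
    obtain ⟨n, hn⟩ := hq
    exact ⟨min m n, Submodule.add_mem _ (ord_anti w (min_le_left _ _) hm)
      (ord_anti w (min_le_right _ _) hn)⟩

theorem sub_comp_mem_ord {n : ℤ} {p q : MvPolynomial (Fin 3) k} (hp : p ∈ ord w n)
    (hq : q ∈ ord w n)
    (h : weightedHomogeneousComponent w n p = weightedHomogeneousComponent w n q) :
    p - q ∈ ord w (n + 1) := by
  intro m hm
  rw [map_sub]
  rcases eq_or_ne m n with rfl | hmn
  · rw [h, sub_self]
  · rw [hp m (by omega), hq m (by omega), sub_zero]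

theorem comp_mem_ord (n : ℤ) (p : MvPolynomial (Fin 3) k) :
    weightedHomogeneousComponent w n p ∈ ord w n := by
  rw [mem_ord_iff]
  intro e he
  rw [coeff_weightedHomogeneousComponent, if_neg (by omega)]

theorem comp_comp (n : ℤ) (p : MvPolynomial (Fin 3) k) :
    weightedHomogeneousComponent w n (weightedHomogeneousComponent w n p)
      = weightedHomogeneousComponent w n p := by
  ext e
  rw [coeff_weightedHomogeneousComponent]
  split_ifs with h
  · rfl
  · rw [coeff_weightedHomogeneousComponent, if_neg h]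

theorem exists_bound (N : ℕ) : ∃ M : ℤ, ord (k := k) w M ≤
    (idealOfVars (Fin 3) k ^ N).restrictScalars k := by
  refine ⟨(|w 0| + |w 1| + |w 2|) * N + 1, fun p hp => ?_⟩
  rw [Submodule.restrictScalars_mem, mem_pow_idealOfVars_iff']
  intro e he
  rw [mem_ord_iff] at hp
  apply hp
  rw [Finsupp.weight_eq_sum, Fin.sum_univ_three]
  have hd : (e 0 : ℤ) + e 1 + e 2 < N := by
    rw [Finsupp.degree_eq_sum, Fin.sum_univ_three] at he
    exact_mod_cast he
  simp only [nsmul_eq_mul]
  have h0 := le_abs_self (w 0)
  have h1 := le_abs_self (w 1)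
  have h2 := le_abs_self (w 2)
  have a0 := abs_nonneg (w 0)
  have a1 := abs_nonneg (w 1)
  have a2 := abs_nonneg (w 2)
  have b0 : (0 : ℤ) ≤ e 0 := Int.natCast_nonneg _
  have b1 : (0 : ℤ) ≤ e 1 := Int.natCast_nonneg _
  have b2 : (0 : ℤ) ≤ e 2 := Int.natCast_nonneg _
  have c0 : (e 0 : ℤ) ≤ N := by omega
  have c1 : (e 1 : ℤ) ≤ N := by omega
  have c2 : (e 2 : ℤ) ≤ N := by omega
  have d0 : (e 0 : ℤ) * w 0 ≤ N * |w 0| :=
    (mul_le_mul_of_nonneg_left h0 b0).trans (mul_le_mul_of_nonneg_right c0 a0)
  have d1 : (e 1 : ℤ) * w 1 ≤ N * |w 1| :=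
    (mul_le_mul_of_nonneg_left h1 b1).trans (mul_le_mul_of_nonneg_right c1 a1)
  have d2 : (e 2 : ℤ) * w 2 ≤ N * |w 2| :=
    (mul_le_mul_of_nonneg_left h2 b2).trans (mul_le_mul_of_nonneg_right c2 a2)
  linarith

end order

section initial

variable {k : Type*} [Field k] (w : Fin 3 → ℤ) (I : Ideal (MvPolynomial (Fin 3) k))

/-- The ideal generated by the lowest weight forms of the elements of `I`. -/
noncomputable def ini : Ideal (MvPolynomial (Fin 3) k) :=
  Ideal.span {p | ∃ n : ℤ, ∃ f ∈ I, (∀ m < n, weightedHomogeneousComponent w m f = 0) ∧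
    p = weightedHomogeneousComponent w n f}

theorem comp_mem_ini {n : ℤ} {f : MvPolynomial (Fin 3) k} (hf : f ∈ I) (ho : f ∈ ord w n) :
    weightedHomogeneousComponent w n f ∈ ini w I :=
  Ideal.subset_span ⟨n, f, hf, ho, rfl⟩

theorem exists_of_mem_ini {g : MvPolynomial (Fin 3) k} (hg : g ∈ ini w I) (n : ℤ) :
    ∃ f ∈ I, f ∈ ord w n ∧
      weightedHomogeneousComponent w n f = weightedHomogeneousComponent w n g := by
  induction hg using Submodule.span_induction generalizing n with
  | mem p hp =>
    obtain ⟨m, f, hf, ho, rfl⟩ := hp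
    rcases eq_or_ne n m with rfl | hnm
    · exact ⟨f, hf, ho, (comp_comp w n f).symm⟩
    · refine ⟨0, I.zero_mem, Submodule.zero_mem _, ?_⟩
      rw [map_zero]
      ext e
      rw [coeff_zero, coeff_weightedHomogeneousComponent, coeff_weightedHomogeneousComponent]
      split_ifs with h1 h2
      · omega
      · rfl
      · rfl
  | zero => exact ⟨0, I.zero_mem, Submodule.zero_mem _, rfl⟩
  | add p q _ _ hp hq =>
    obtain ⟨f, hf, ho, h⟩ := hp n
    obtain ⟨g, hg, ho', h'⟩ := hq n
    exact ⟨f + g, I.add_mem hf hg, Submodule.add_mem _ ho ho', by rw [map_add, map_add, h, h']⟩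
  | smul r p _ hp =>
    rw [smul_eq_mul]
    induction r using MvPolynomial.induction_on' with
    | monomial e c =>
      obtain ⟨f, hf, ho, h⟩ := hp (n - Finsupp.weight w e)
      refine ⟨monomial e c * f, I.mul_mem_left _ hf, ?_, ?_⟩
      · have := monomial_mul_mem_ord w (e := e) (c := c) ho
        rwa [sub_add_cancel] at this
      · rw [comp_monomial_mul, comp_monomial_mul, h]
    | add r s hr hs =>
      obtain ⟨f, hf, ho, h⟩ := hr
      obtain ⟨g, hg, ho', h'⟩ := hs
      exact ⟨f + g, I.add_mem hf hg, Submodule.add_mem _ ho ho',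
        by rw [map_add, add_mul, map_add, h, h']⟩

/-- The initial ideal is homogeneous. -/
theorem comp_mem_ini_of_mem {g : MvPolynomial (Fin 3) k} (hg : g ∈ ini w I) (n : ℤ) :
    weightedHomogeneousComponent w n g ∈ ini w I := by
  obtain ⟨f, hf, ho, h⟩ := exists_of_mem_ini w I hg n
  rw [← h]
  exact comp_mem_ini w I hf ho

theorem pow_le_ini {N : ℕ} (hN : idealOfVars (Fin 3) k ^ N ≤ I) :
    idealOfVars (Fin 3) k ^ N ≤ ini w I := by
  rw [pow_idealOfVars_eq_span, Ideal.span_le]
  rintro _ ⟨e, he, rfl⟩
  have h1 : (monomial e (1 : k) : MvPolynomial (Fin 3) k) ∈ I := by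
    apply hN
    rw [monomial_mem_pow_idealOfVars_iff _ _ one_ne_zero]
    exact le_of_eq he.symm
  have h2 := comp_mem_ini w I h1 (monomial_mem_ord w e 1)
  rwa [comp_monomial, if_pos rfl] at h2

/-- The classes of the monomials span. -/
theorem span_monomials (J : Ideal (MvPolynomial (Fin 3) k)) :
    Submodule.span k (Set.range fun e : Fin 3 →₀ ℕ =>
      (Ideal.Quotient.mk J (monomial e 1) : MvPolynomial (Fin 3) k ⧸ J)) = ⊤ := by
  rw [eq_top_iff]
  intro v _
  obtain ⟨p, rfl⟩ := Ideal.Quotient.mk_surjective v
  induction p using MvPolynomial.induction_on' with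
  | monomial e c =>
    have h : (Ideal.Quotient.mk J (monomial e c) : MvPolynomial (Fin 3) k ⧸ J)
        = c • Ideal.Quotient.mk J (monomial e 1) := by
      have h2 : (monomial e c : MvPolynomial (Fin 3) k) = c • monomial e 1 := by
        rw [smul_monomial, smul_eq_mul, mul_one]
      rw [h2]
      rfl
    rw [h]
    exact Submodule.smul_mem _ _ (Submodule.subset_span ⟨e, rfl⟩)
  | add p q hp hq =>
    rw [map_add]
    exact Submodule.add_mem _ (hp trivial) (hq trivial)

/-- A finite family of monomials whose classes are a basis of `S/in(I)` and of `S/I`. -/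
theorem exists_bases {N : ℕ} (hN : idealOfVars (Fin 3) k ^ N ≤ I) :
    ∃ (κ : Type) (_ : Fintype κ) (a : κ → (Fin 3 →₀ ℕ))
      (bQ : Module.Basis κ k (MvPolynomial (Fin 3) k ⧸ ini w I))
      (bV : Module.Basis κ k (MvPolynomial (Fin 3) k ⧸ I)),
      (∀ e, bQ e = Ideal.Quotient.mk (ini w I) (monomial (a e) 1)) ∧
      (∀ e, bV e = Ideal.Quotient.mk I (monomial (a e) 1)) := by
  classical
  obtain ⟨κ, a, ha, hsp, hli⟩ := exists_linearIndependent' k
    (fun e : Fin 3 →₀ ℕ =>
      (Ideal.Quotient.mk (ini w I) (monomial e 1) : MvPolynomial (Fin 3) k ⧸ ini w I))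
  rw [span_monomials] at hsp
  have hfin : Finite κ := by
    have h1 : ∀ e, a e ∈ {f : Fin 3 →₀ ℕ | Finsupp.degree f ≤ N} := by
      intro e
      by_contra h
      have h2 := hli.ne_zero e
      apply h2
      rw [Function.comp_apply, Ideal.Quotient.eq_zero_iff_mem]
      apply pow_le_ini w I hN
      rw [monomial_mem_pow_idealOfVars_iff _ _ one_ne_zero]
      rw [Set.mem_ofPred_eq] at h
      omega
    have h3 : Finite {f : Fin 3 →₀ ℕ | Finsupp.degree f ≤ N} :=
      (Finsupp.finite_of_degree_le N).to_subtype
    exact Finite.of_injective (fun e => (⟨a e, h1 e⟩ : {f : Fin 3 →₀ ℕ | Finsupp.degree f ≤ N}))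
      (fun x y hxy => ha (congrArg Subtype.val hxy))
  have : Fintype κ := Fintype.ofFinite κ
  let bQ : Module.Basis κ k (MvPolynomial (Fin 3) k ⧸ ini w I) :=
    Module.Basis.mk hli (by rw [hsp])
  have hbQ : ∀ e, bQ e = Ideal.Quotient.mk (ini w I) (monomial (a e) 1) := fun e => by
    rw [Module.Basis.mk_apply]
    rfl
  -- independence in `S/I`
  have hind : ∀ c : κ → k, (∑ e, c e • (monomial (a e) 1 : MvPolynomial (Fin 3) k)) ∈ I →
      ∀ e, c e = 0 := by
    intro c hc
    by_contra hne
    push Not at hne
    obtain ⟨e1, he1⟩ := hne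
    obtain ⟨e0, he0, hmin⟩ := Finset.exists_min_image
      (Finset.univ.filter fun e => c e ≠ 0) (fun e => Finsupp.weight w (a e))
      ⟨e1, by simpa using he1⟩
    have he0' : c e0 ≠ 0 := by simpa using he0
    set n := Finsupp.weight w (a e0) with hn
    have ho : (∑ e, c e • (monomial (a e) 1 : MvPolynomial (Fin 3) k)) ∈ ord w n := by
      refine Submodule.sum_mem _ fun e _ => ?_
      by_cases h : c e = 0
      · rw [h, zero_smul]
        exact Submodule.zero_mem _
      · exact Submodule.smul_mem _ _ (ord_anti w (hmin e (by simpa using h))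
          (monomial_mem_ord w _ _))
    have h1 := comp_mem_ini w I hc ho
    rw [map_sum] at h1
    simp only [map_smul, comp_monomial] at h1
    have h2 : ∑ e, (if Finsupp.weight w (a e) = n then c e else 0) • bQ e = 0 := by
      have h3 := Ideal.Quotient.eq_zero_iff_mem.2 h1
      rw [map_sum] at h3
      rw [← h3]
      refine Finset.sum_congr rfl fun e _ => ?_
      rw [hbQ]
      split_ifs
      · rfl
      · rw [zero_smul, smul_zero, map_zero]
    have h4 := Fintype.linearIndependent_iff.1 bQ.linearIndependent _ h2 e0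
    rw [if_pos hn.symm] at h4
    exact he0' h4
  have hliV : LinearIndependent k fun e : κ =>
      (Ideal.Quotient.mk I (monomial (a e) 1) : MvPolynomial (Fin 3) k ⧸ I) := by
    rw [Fintype.linearIndependent_iff]
    intro c hc
    apply hind
    rw [← Ideal.Quotient.eq_zero_iff_mem, ← hc, map_sum]
    rfl
  -- spanning in `S/I`
  obtain ⟨M, hM⟩ := exists_bound (k := k) w N
  let P : Submodule k (MvPolynomial (Fin 3) k ⧸ I) := Submodule.span k (Set.range fun e : κ =>
      (Ideal.Quotient.mk I (monomial (a e) 1) : MvPolynomial (Fin 3) k ⧸ I))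
  have key : ∀ (t : ℕ) (n : ℤ) (p : MvPolynomial (Fin 3) k), M ≤ n + t → p ∈ ord w n →
      Ideal.Quotient.mk I p ∈ P := by
    intro t
    induction t with
    | zero =>
      intro n p hn hp
      have h1 : p ∈ I := hN (hM (ord_anti w (by simpa using hn) hp))
      rw [Ideal.Quotient.eq_zero_iff_mem.2 h1]
      exact Submodule.zero_mem _
    | succ t ih =>
      intro n p hn hp
      have h1 : Ideal.Quotient.mk (ini w I) p
          = ∑ e, bQ.repr (Ideal.Quotient.mk (ini w I) p) e • bQ e := (bQ.sum_repr _).symm
      set c := bQ.repr (Ideal.Quotient.mk (ini w I) p) with hc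
      let q : MvPolynomial (Fin 3) k := ∑ e, c e • (monomial (a e) 1 : MvPolynomial (Fin 3) k)
      have h2 : p - q ∈ ini w I := by
        rw [← Ideal.Quotient.eq, h1, map_sum]
        refine Finset.sum_congr rfl fun e _ => ?_
        rw [hbQ]
        rfl
      obtain ⟨f, hf, ho, h3⟩ := exists_of_mem_ini w I h2 n
      rw [map_sub] at h3
      have h4 : p - (f + weightedHomogeneousComponent w n q) ∈ ord w (n + 1) := by
        apply sub_comp_mem_ord w hp (Submodule.add_mem _ ho (comp_mem_ord w n q))
        rw [map_add, comp_comp, h3]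
        abel
      have h5 := ih (n + 1) _ (by push_cast at hn; omega) h4
      have h6 : Ideal.Quotient.mk I (weightedHomogeneousComponent w n q) ∈ P := by
        have h7 : weightedHomogeneousComponent w n q
            = ∑ e, (if Finsupp.weight w (a e) = n then c e else 0) •
              (monomial (a e) 1 : MvPolynomial (Fin 3) k) := by
          simp only [q, map_sum, map_smul, comp_monomial]
          refine Finset.sum_congr rfl fun e _ => ?_
          split_ifs
          · rfl
          · rw [zero_smul, smul_zero]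
        rw [h7, map_sum]
        refine Submodule.sum_mem _ fun e _ => ?_
        exact Submodule.smul_mem P _ (Submodule.subset_span (Set.mem_range_self e))
      have h8 : Ideal.Quotient.mk I p = Ideal.Quotient.mk I
          (p - (f + weightedHomogeneousComponent w n q)) +
          Ideal.Quotient.mk I (weightedHomogeneousComponent w n q) := by
        rw [← map_add, Ideal.Quotient.eq]
        have : p - (p - (f + weightedHomogeneousComponent w n q)
          + weightedHomogeneousComponent w n q) = f := by ring
        rw [this]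
        exact hf
      rw [h8]
      exact Submodule.add_mem _ h5 h6
  have hspV : ⊤ ≤ P := by
    intro v _
    obtain ⟨p, rfl⟩ := Ideal.Quotient.mk_surjective v
    obtain ⟨n, hn⟩ := exists_mem_ord w p
    exact key (M - n).toNat n p (by omega) hn
  let bV : Module.Basis κ k (MvPolynomial (Fin 3) k ⧸ I) := Module.Basis.mk hliV hspV
  refine ⟨κ, this, a, bQ, bV, hbQ, fun e => ?_⟩
  rw [Module.Basis.mk_apply]

end initial

end Pool.Agent.H17.LF
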