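import Mathlib
import Pool.Agent.H13.ParTangent
import Pool.Agent.H17.LF.Lin
import Pool.Agent.H17.LF.Ini

/-!
# The symbol maps from `S/I` to `S/in(I)`
-/

set_option linter.unusedSectionVars false

open MvPolynomial

namespace Pool.Agent.H17.LF

open Pool.Agent.H13.Par

variable {k : Type*} [Field k] (w : Fin 3 → ℤ) (I : Ideal (MvPolynomial (Fin 3) k))
  {κ : Type} [Fintype κ] (a : κ → (Fin 3 →₀ ℕ))
  (bQ : Module.Basis κ k (MvPolynomial (Fin 3) k ⧸ ini w I))
  (bV : Module.Basis κ k (MvPolynomial (Fin 3) k ⧸ I))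

/-- The weight of a basis monomial. -/
noncomputable def om (e : κ) : ℤ := Finsupp.weight w (a e)

/-- The homogeneous part of degree `n` of `S/in(I)`. -/
def hom (n : ℤ) : Submodule k (MvPolynomial (Fin 3) k ⧸ ini w I) where
  carrier := {v | ∀ e, om w a e ≠ n → bQ.repr v e = 0}
  add_mem' := by
    intro u v hu hv e he
    rw [map_add, Finsupp.add_apply, hu e he, hv e he, add_zero]
  zero_mem' := by
    intro e _
    rw [map_zero, Finsupp.zero_apply]
  smul_mem' := by
    intro c v hv e he
    rw [map_smul, Finsupp.smul_apply, hv e he, smul_zero]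

theorem hom_le_fil (n : ℤ) : hom w I a bQ n ≤ fil bQ (om w a) n :=
  fun _ hv e he => hv e (by omega)

/-- The symbol of degree `n`. -/
noncomputable def sy (n : ℤ) :
    (MvPolynomial (Fin 3) k ⧸ I) →ₗ[k] (MvPolynomial (Fin 3) k ⧸ ini w I) :=
  bV.constr k fun e => if om w a e = n then bQ e else 0

/-- The identification of the two quotients through the bases. -/
noncomputable def th :
    (MvPolynomial (Fin 3) k ⧸ ini w I) →ₗ[k] (MvPolynomial (Fin 3) k ⧸ I) :=
  bQ.constr k fun e => bV e

/-- The monomial section. -/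
noncomputable def ta : (MvPolynomial (Fin 3) k ⧸ I) →ₗ[k] MvPolynomial (Fin 3) k :=
  bV.constr k fun e => monomial (a e) 1

theorem sy_repr (n : ℤ) (v) (e : κ) :
    bQ.repr (sy w I a bQ bV n v) e = if om w a e = n then bV.repr v e else 0 := by
  classical
  rw [sy, Module.Basis.constr_apply_fintype, map_sum, Finsupp.finsetSum_apply,
    Finset.sum_eq_single e]
  · rw [map_smul, Finsupp.smul_apply, Module.Basis.equivFun_apply]
    split_ifs with h
    · rw [bQ.repr_self, Finsupp.single_eq_same, smul_eq_mul, mul_one]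
    · rw [map_zero, Finsupp.zero_apply, smul_zero]
  · intro e' _ he'
    rw [map_smul, Finsupp.smul_apply]
    split_ifs with h
    · rw [bQ.repr_self, Finsupp.single_eq_of_ne he'.symm, smul_zero]
    · rw [map_zero, Finsupp.zero_apply, smul_zero]
  · intro h
    exact absurd (Finset.mem_univ e) h

theorem th_repr (q) (e : κ) : bV.repr (th w I bQ bV q) e = bQ.repr q e := by
  classical
  rw [th, Module.Basis.constr_apply_fintype, map_sum, Finsupp.finsetSum_apply,
    Finset.sum_eq_single e]
  · rw [map_smul, Finsupp.smul_apply, Module.Basis.equivFun_apply, bV.repr_self,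
      Finsupp.single_eq_same, smul_eq_mul, mul_one]
  · intro e' _ he'
    rw [map_smul, Finsupp.smul_apply, bV.repr_self, Finsupp.single_eq_of_ne he'.symm, smul_zero]
  · intro h
    exact absurd (Finset.mem_univ e) h

theorem th_mem {n : ℤ} {q} (hq : q ∈ fil bQ (om w a) n) :
    th w I bQ bV q ∈ fil bV (om w a) n := by
  intro e he
  rw [th_repr]
  exact hq e he

theorem sy_th_hom {n : ℤ} {q} (hq : q ∈ hom w I a bQ n) :
    sy w I a bQ bV n (th w I bQ bV q) = q := by
  apply bQ.repr.injective
  ext e
  rw [sy_repr, th_repr]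
  split_ifs with h
  · rfl
  · exact (hq e h).symm

theorem sy_mem_hom (n : ℤ) (v) : sy w I a bQ bV n v ∈ hom w I a bQ n := by
  intro e he
  rw [sy_repr, if_neg he]

theorem sy_eq_zero {n : ℤ} {v} (hv : v ∈ fil bV (om w a) (n + 1)) :
    sy w I a bQ bV n v = 0 := by
  apply bQ.repr.injective
  ext e
  rw [sy_repr, map_zero, Finsupp.zero_apply]
  split_ifs with h
  · exact hv e (by omega)
  · rfl

theorem mem_fil_succ {n : ℤ} {v} (hv : v ∈ fil bV (om w a) n) (h0 : sy w I a bQ bV n v = 0) :
    v ∈ fil bV (om w a) (n + 1) := by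
  intro e he
  rcases lt_or_ge (om w a e) n with h | h
  · exact hv e h
  · have h1 := sy_repr w I a bQ bV n v e
    rw [h0, map_zero, Finsupp.zero_apply, if_pos (by omega)] at h1
    exact h1.symm

variable (hbQ : ∀ e, bQ e = Ideal.Quotient.mk (ini w I) (monomial (a e) 1))
  (hbV : ∀ e, bV e = Ideal.Quotient.mk I (monomial (a e) 1))

include hbV in
theorem mk_ta (v) : Ideal.Quotient.mk I (ta I a bV v) = v := by
  rw [ta, Module.Basis.constr_apply_fintype, map_sum]
  conv_rhs => rw [← bV.sum_repr v]
  refine Finset.sum_congr rfl fun e _ => ?_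
  rw [hbV, Module.Basis.equivFun_apply]
  rfl

theorem ta_mem_ord {n : ℤ} {v} (hv : v ∈ fil bV (om w a) n) : ta I a bV v ∈ ord w n := by
  rw [ta, Module.Basis.constr_apply_fintype]
  refine Submodule.sum_mem _ fun e _ => ?_
  rw [Module.Basis.equivFun_apply]
  rcases lt_or_ge (om w a e) n with h | h
  · rw [hv e h, zero_smul]
    exact Submodule.zero_mem _
  · exact Submodule.smul_mem _ _ (ord_anti w h (monomial_mem_ord w _ _))

include hbQ in
/-- The coordinates of the class of a component. -/
theorem repr_comp (p : MvPolynomial (Fin 3) k) (n : ℤ) (e : κ) :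
    bQ.repr (Ideal.Quotient.mk (ini w I) (weightedHomogeneousComponent w n p)) e
      = if om w a e = n then bQ.repr (Ideal.Quotient.mk (ini w I) p) e else 0 := by
  classical
  set c := bQ.repr (Ideal.Quotient.mk (ini w I) p) with hc
  let q : MvPolynomial (Fin 3) k := ∑ e, c e • (monomial (a e) 1 : MvPolynomial (Fin 3) k)
  have h1 : p - q ∈ ini w I := by
    rw [← Ideal.Quotient.eq, ← bQ.sum_repr (Ideal.Quotient.mk (ini w I) p), map_sum]
    refine Finset.sum_congr rfl fun e _ => ?_
    rw [hbQ]
    rfl
  have h2 := comp_mem_ini_of_mem w I h1 n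
  rw [map_sub, ← Ideal.Quotient.eq] at h2
  have h3 : Ideal.Quotient.mk (ini w I) (weightedHomogeneousComponent w n q)
      = ∑ e, (if om w a e = n then c e else 0) • bQ e := by
    simp only [q, map_sum, map_smul, comp_monomial]
    refine Finset.sum_congr rfl fun e _ => ?_
    rw [hbQ]
    unfold om
    split_ifs
    · rfl
    · rw [zero_smul, smul_zero, map_zero]
  rw [h2, h3, map_sum, Finsupp.finsetSum_apply, Finset.sum_eq_single e]
  · rw [map_smul, Finsupp.smul_apply, bQ.repr_self, Finsupp.single_eq_same, smul_eq_mul, mul_one]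
  · intro e' _ he'
    rw [map_smul, Finsupp.smul_apply, bQ.repr_self, Finsupp.single_eq_of_ne he'.symm, smul_zero]
  · intro h
    exact absurd (Finset.mem_univ e) h

include hbQ in
theorem mk_comp_mem_hom (p : MvPolynomial (Fin 3) k) (n : ℤ) :
    Ideal.Quotient.mk (ini w I) (weightedHomogeneousComponent w n p) ∈ hom w I a bQ n := by
  intro e he
  rw [repr_comp w I a bQ hbQ, if_neg he]

include hbQ hbV in
/-- The class of a polynomial of order `≥ n`. -/
theorem mk_mem_fil {N : ℕ} (hN : idealOfVars (Fin 3) k ^ N ≤ I) {n : ℤ}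
    {p : MvPolynomial (Fin 3) k} (hp : p ∈ ord w n) :
    Ideal.Quotient.mk I p ∈ fil bV (om w a) n ∧
      ∀ e, om w a e = n → bV.repr (Ideal.Quotient.mk I p) e
        = bQ.repr (Ideal.Quotient.mk (ini w I) p) e := by
  classical
  obtain ⟨M, hM⟩ := exists_bound (k := k) w N
  have key : ∀ (t : ℕ) (n : ℤ) (p : MvPolynomial (Fin 3) k), M ≤ n + t → p ∈ ord w n →
      Ideal.Quotient.mk I p ∈ fil bV (om w a) n ∧
      ∀ e, om w a e = n → bV.repr (Ideal.Quotient.mk I p) e
        = bQ.repr (Ideal.Quotient.mk (ini w I) p) e := by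
    intro t
    induction t with
    | zero =>
      intro n p hn hp
      have h0 : M ≤ n := by simpa using hn
      have h1 : p ∈ I := hN (hM (ord_anti w h0 hp))
      have h2 := comp_mem_ini w I h1 hp
      rw [Ideal.Quotient.eq_zero_iff_mem.2 h1]
      refine ⟨Submodule.zero_mem _, fun e he => ?_⟩
      have h3 := repr_comp w I a bQ hbQ p n e
      rw [if_pos he, Ideal.Quotient.eq_zero_iff_mem.2 h2, map_zero, Finsupp.zero_apply] at h3
      rw [map_zero, Finsupp.zero_apply, h3]
    | succ t ih =>
      intro n p hn hp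
      set c := bQ.repr (Ideal.Quotient.mk (ini w I) p) with hc
      let q : MvPolynomial (Fin 3) k := ∑ e, c e • (monomial (a e) 1 : MvPolynomial (Fin 3) k)
      have h2 : p - q ∈ ini w I := by
        rw [← Ideal.Quotient.eq, ← bQ.sum_repr (Ideal.Quotient.mk (ini w I) p), map_sum]
        refine Finset.sum_congr rfl fun e _ => ?_
        rw [hbQ]
        rfl
      obtain ⟨f, hf, ho, h3⟩ := exists_of_mem_ini w I h2 n
      rw [map_sub] at h3
      have h4 : p - (f + weightedHomogeneousComponent w n q) ∈ ord w (n + 1) := by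
        apply sub_comp_mem_ord w hp (Submodule.add_mem _ ho (comp_mem_ord w n q))
        rw [map_add, comp_comp, h3]
        abel
      obtain ⟨h5, -⟩ := ih (n + 1) _ (by push_cast at hn; omega) h4
      have h7 : Ideal.Quotient.mk I (weightedHomogeneousComponent w n q)
          = ∑ e, (if om w a e = n then c e else 0) • bV e := by
        simp only [q, map_sum, map_smul, comp_monomial]
        refine Finset.sum_congr rfl fun e _ => ?_
        rw [hbV]
        unfold om
        split_ifs
        · rfl
        · rw [zero_smul, smul_zero, map_zero]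
      have h8 : Ideal.Quotient.mk I p = Ideal.Quotient.mk I
          (p - (f + weightedHomogeneousComponent w n q)) +
          Ideal.Quotient.mk I (weightedHomogeneousComponent w n q) := by
        rw [← map_add, Ideal.Quotient.eq]
        have : p - (p - (f + weightedHomogeneousComponent w n q)
          + weightedHomogeneousComponent w n q) = f := by ring
        rw [this]
        exact hf
      have h9 : ∀ e, bV.repr (Ideal.Quotient.mk I (weightedHomogeneousComponent w n q)) e
          = if om w a e = n then c e else 0 := by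
        intro e
        rw [h7, map_sum, Finsupp.finsetSum_apply, Finset.sum_eq_single e]
        · rw [map_smul, Finsupp.smul_apply, bV.repr_self, Finsupp.single_eq_same, smul_eq_mul,
            mul_one]
        · intro e' _ he'
          rw [map_smul, Finsupp.smul_apply, bV.repr_self, Finsupp.single_eq_of_ne he'.symm,
            smul_zero]
        · intro h
          exact absurd (Finset.mem_univ e) h
      refine ⟨?_, fun e he => ?_⟩
      · intro e he
        rw [h8, map_add, Finsupp.add_apply, h5 e (by omega), h9, if_neg (by omega), add_zero]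
      · rw [h8, map_add, Finsupp.add_apply, h5 e (by omega), h9, if_pos he, zero_add]
  exact key (M - n).toNat n p (by omega) hp

include hbQ hbV in
theorem sy_mk {N : ℕ} (hN : idealOfVars (Fin 3) k ^ N ≤ I) {n : ℤ}
    {p : MvPolynomial (Fin 3) k} (hp : p ∈ ord w n) :
    sy w I a bQ bV n (Ideal.Quotient.mk I p)
      = Ideal.Quotient.mk (ini w I) (weightedHomogeneousComponent w n p) := by
  apply bQ.repr.injective
  ext e
  rw [sy_repr, repr_comp w I a bQ hbQ]
  split_ifs with h
  · exact (mk_mem_fil w I a bQ bV hbQ hbV hN hp).2 e h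
  · rfl

include hbQ hbV in
theorem op_mem_fil {N : ℕ} (hN : idealOfVars (Fin 3) k ^ N ≤ I) {n : ℤ} (i : Fin 3) {v}
    (hv : v ∈ fil bV (om w a) n) :
    op I i v ∈ fil bV (om w a) (n + w i) ∧
      sy w I a bQ bV (n + w i) (op I i v) = op (ini w I) i (sy w I a bQ bV n v) := by
  have h1 := ta_mem_ord w I a bV hv
  have h2 := mk_ta I a bV hbV v
  have h3 : op I i v = Ideal.Quotient.mk I (X i * ta I a bV v) := by
    rw [map_mul, h2]
    rfl
  have h4 : sy w I a bQ bV n v = Ideal.Quotient.mk (ini w I)
      (weightedHomogeneousComponent w n (ta I a bV v)) := by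
    rw [← sy_mk w I a bQ bV hbQ hbV hN h1, h2]
  rw [h3]
  refine ⟨(mk_mem_fil w I a bQ bV hbQ hbV hN (X_mul_mem_ord w i h1)).1, ?_⟩
  rw [sy_mk w I a bQ bV hbQ hbV hN (X_mul_mem_ord w i h1), h4, comp_X_mul, map_mul]
  rfl

include hbQ hbV in
theorem op_mem_up {N : ℕ} (hN : idealOfVars (Fin 3) k ^ N ≤ I) (i : Fin 3) :
    op I i ∈ up bV (om w a) (w i) :=
  fun _ _ hv => (op_mem_fil w I a bQ bV hbQ hbV hN i hv).1

include hbQ in
/-- Elements of degree `n` are classes of forms of weight `n`. -/
theorem exists_of_hom {n : ℤ} {q} (hq : q ∈ hom w I a bQ n) :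
    ∃ p, IsWeightedHomogeneous w p n ∧ Ideal.Quotient.mk (ini w I) p = q := by
  refine ⟨∑ e, bQ.repr q e • (monomial (a e) 1 : MvPolynomial (Fin 3) k), ?_, ?_⟩
  · rw [← mem_weightedHomogeneousSubmodule]
    refine Submodule.sum_mem _ fun e _ => ?_
    by_cases h : om w a e = n
    · refine Submodule.smul_mem _ _ ?_
      rw [mem_weightedHomogeneousSubmodule]
      exact isWeightedHomogeneous_monomial w _ _ h
    · rw [hq e h, zero_smul]
      exact Submodule.zero_mem _
  · conv_rhs => rw [← bQ.sum_repr q]
    rw [map_sum]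
    refine Finset.sum_congr rfl fun e _ => ?_
    rw [hbQ]
    rfl

include hbQ in
theorem op_mem_hom {n : ℤ} (i : Fin 3) {q} (hq : q ∈ hom w I a bQ n) :
    op (ini w I) i q ∈ hom w I a bQ (n + w i) := by
  obtain ⟨p, hp, rfl⟩ := exists_of_hom w I a bQ hbQ hq
  have h1 : op (ini w I) i (Ideal.Quotient.mk (ini w I) p)
      = Ideal.Quotient.mk (ini w I) (weightedHomogeneousComponent w (n + w i) (X i * p)) := by
    rw [comp_X_mul, hp.weightedHomogeneousComponent_same, map_mul]
    rfl
  rw [h1]
  exact mk_comp_mem_hom w I a bQ hbQ _ _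

end Pool.Agent.H17.LF
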