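import Mathlib
import Pool.Agent.H17.LF.Sym

/-!
# From tangent vectors of the initial ideal to approximate cocycles
-/

set_option linter.unusedSectionVars false

open MvPolynomial

namespace Pool.Agent.H17.LF

open Pool.Agent.H13.Par

section deriv

variable {k : Type*} [Field k] (J : Ideal (MvPolynomial (Fin 3) k))

/-- A cocycle is the derivation of a linear map on polynomials. -/
theorem exists_D (u : Fin 3 → Module.End k (MvPolynomial (Fin 3) k ⧸ J))
    (hu : u ∈ LinearMap.ker (curl (op J))) :
    ∃ D : MvPolynomial (Fin 3) k →ₗ[k] (MvPolynomial (Fin 3) k ⧸ J), D 1 = 0 ∧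
      ∀ i p, D (X i * p) = op J i (D p) + u i (Ideal.Quotient.mk J p) := by
  obtain ⟨⟨φ, c⟩, h⟩ := comb_surj J u hu
  rw [comb_apply] at h
  have hmem : ∀ f : MvPolynomial (Fin 3) k, f - sec J (Ideal.Quotient.mk J f) ∈ J := by
    intro f
    rw [← Ideal.Quotient.eq, mk_sec]
  let ψ : MvPolynomial (Fin 3) k →ₗ[k] MvPolynomial (Fin 3) k ⧸ J :=
    { toFun := fun f => φ ⟨f - sec J (Ideal.Quotient.mk J f), hmem f⟩
        - c (Ideal.Quotient.mk J f)
      map_add' := fun f g => by
        have : (⟨f + g - sec J (Ideal.Quotient.mk J (f + g)), hmem (f + g)⟩ : J)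
            = ⟨f - sec J (Ideal.Quotient.mk J f), hmem f⟩
              + ⟨g - sec J (Ideal.Quotient.mk J g), hmem g⟩ := by
          apply Subtype.ext
          simp only [map_add, Submodule.coe_add]
          ring
        rw [this, map_add, map_add, map_add]
        abel
      map_smul' := fun c' f => by
        have h1 : Ideal.Quotient.mk J (c' • f) = c' • Ideal.Quotient.mk J f := rfl
        have : (⟨c' • f - sec J (Ideal.Quotient.mk J (c' • f)), hmem (c' • f)⟩ : J)
            = c' • ⟨f - sec J (Ideal.Quotient.mk J f), hmem f⟩ := by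
          apply Subtype.ext
          change c' • f - sec J (Ideal.Quotient.mk J (c' • f)) =
            c' • (f - sec J (Ideal.Quotient.mk J f))
          rw [h1, map_smul, smul_sub]
        rw [this, h1, LinearMap.map_smul_of_tower, map_smul, RingHom.id_apply, smul_sub] }
  have hψ : ∀ f, ψ f = φ ⟨f - sec J (Ideal.Quotient.mk J f), hmem f⟩
        - c (Ideal.Quotient.mk J f) := fun f => rfl
  have hX : ∀ i f, ψ (X i * f) = op J i (ψ f) + u i (Ideal.Quotient.mk J f) := by
    intro i f
    have h1 : Ideal.Quotient.mk J (X i * f)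
      = (X i : MvPolynomial (Fin 3) k) • Ideal.Quotient.mk J f := rfl
    have h2 : (⟨X i * f - sec J (Ideal.Quotient.mk J (X i * f)), hmem (X i * f)⟩ : J)
        = (X i : MvPolynomial (Fin 3) k) • (⟨f - sec J (Ideal.Quotient.mk J f), hmem f⟩ : J)
          + ⟨X i * sec J (Ideal.Quotient.mk J f)
            - sec J ((X i : MvPolynomial (Fin 3) k) • Ideal.Quotient.mk J f),
              sec_mem J i _⟩ := by
      apply Subtype.ext
      simp only [Submodule.coe_add, SetLike.val_smul, smul_eq_mul, h1]
      ring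
    have h3 : coc J φ i (Ideal.Quotient.mk J f) +
        (op J i (c (Ideal.Quotient.mk J f)) - c (op J i (Ideal.Quotient.mk J f)))
        = u i (Ideal.Quotient.mk J f) :=
      LinearMap.congr_fun (congrFun h i) (Ideal.Quotient.mk J f)
    rw [← h3, hψ, hψ, h2, map_add, map_smul, ← coc_apply, h1, map_sub, op_apply, op_apply,
      op_apply]
    abel
  refine ⟨ψ - ((LinearMap.mulRight k (ψ 1)) ∘ₗ (Ideal.Quotient.mkₐ k J).toLinearMap), ?_, ?_⟩
  · change ψ 1 - Ideal.Quotient.mk J 1 * ψ 1 = 0
    rw [show Ideal.Quotient.mk J 1 = 1 from map_one (Ideal.Quotient.mk J), one_mul, sub_self]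
  · intro i p
    change ψ (X i * p) - Ideal.Quotient.mk J (X i * p) * ψ 1
      = op J i (ψ p - Ideal.Quotient.mk J p * ψ 1) + u i (Ideal.Quotient.mk J p)
    rw [hX, map_sub]
    have : op J i (Ideal.Quotient.mk J p * ψ 1) = Ideal.Quotient.mk J (X i * p) * ψ 1 := by
      rw [op, LinearMap.mulLeft_apply, map_mul, mul_assoc]
    rw [this]
    abel

/-- Such a map is linear over polynomials on the ideal. -/
theorem D_smul (u : Fin 3 → Module.End k (MvPolynomial (Fin 3) k ⧸ J))
    (D : MvPolynomial (Fin 3) k →ₗ[k] (MvPolynomial (Fin 3) k ⧸ J))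
    (hD : ∀ i p, D (X i * p) = op J i (D p) + u i (Ideal.Quotient.mk J p))
    {f : MvPolynomial (Fin 3) k} (hf : f ∈ J) (r : MvPolynomial (Fin 3) k) :
    D (r * f) = r • D f := by
  induction r using MvPolynomial.induction_on with
  | C c =>
    have : (C c : MvPolynomial (Fin 3) k) = c • 1 := by
      rw [MvPolynomial.smul_eq_C_mul, mul_one]
    rw [this, smul_mul_assoc, one_mul, map_smul, smul_assoc, one_smul]
  | add p q hp hq => rw [add_mul, map_add, hp, hq, add_smul]
  | mul_X p i hp =>
    have h1 : p * X i * f = X i * (p * f) := by ring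
    have h2 : Ideal.Quotient.mk J (p * f) = 0 :=
      Ideal.Quotient.eq_zero_iff_mem.2 (J.mul_mem_left _ hf)
    rw [h1, hD, h2, map_zero, add_zero, hp, op_apply, smul_smul, mul_comm]

end deriv

section main

variable {k : Type*} [Field k] (w : Fin 3 → ℤ) (I : Ideal (MvPolynomial (Fin 3) k))
  {κ : Type} [Fintype κ] (a : κ → (Fin 3 →₀ ℕ))
  (bQ : Module.Basis κ k (MvPolynomial (Fin 3) k ⧸ ini w I))
  (bV : Module.Basis κ k (MvPolynomial (Fin 3) k ⧸ I))
  (hbQ : ∀ e, bQ e = Ideal.Quotient.mk (ini w I) (monomial (a e) 1))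
  (hbV : ∀ e, bV e = Ideal.Quotient.mk I (monomial (a e) 1))

/-- The symbol of degree `j` of a triple. -/
noncomputable def lead (j : ℤ) (u : Fin 3 → Module.End k (MvPolynomial (Fin 3) k ⧸ I)) :
    Fin 3 → Module.End k (MvPolynomial (Fin 3) k ⧸ ini w I) :=
  fun i => bQ.constr k fun e => sy w I a bQ bV (om w a e + j + w i) (u i (bV e))

theorem lead_basis (j : ℤ) (u : Fin 3 → Module.End k (MvPolynomial (Fin 3) k ⧸ I)) (i : Fin 3)
    (e : κ) : lead w I a bQ bV j u i (bQ e)
      = sy w I a bQ bV (om w a e + j + w i) (u i (bV e)) := by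
  rw [lead, Module.Basis.constr_basis]

/-- The symbol of a triple is compatible with the symbol maps. -/
theorem lead_sy {j : ℤ} {u : Fin 3 → Module.End k (MvPolynomial (Fin 3) k ⧸ I)}
    (hu : u ∈ upT bV (om w a) w j) (i : Fin 3) {n : ℤ} {v} (hv : v ∈ fil bV (om w a) n) :
    lead w I a bQ bV j u i (sy w I a bQ bV n v)
      = sy w I a bQ bV (n + j + w i) (u i v) := by
  classical
  conv_rhs => rw [← bV.sum_repr v]
  rw [sy, Module.Basis.constr_apply_fintype, map_sum, map_sum, map_sum]
  refine Finset.sum_congr rfl fun e _ => ?_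
  rw [Module.Basis.equivFun_apply, map_smul, map_smul, map_smul]
  rcases lt_trichotomy (om w a e) n with h | h | h
  · rw [hv e h, zero_smul, zero_smul]
  · rw [if_pos h, lead_basis, h]
  · rw [if_neg (by omega), map_zero, smul_zero]
    have h1 : sy w I a bQ bV (n + j + w i) (u i (bV e)) = 0 := by
      apply sy_eq_zero
      exact fil_anti bV (om w a) (by omega) (hu i _ _ (basis_mem_fil bV (om w a) e))
    rw [h1, smul_zero]

theorem lead_mem_hom {j : ℤ} (u : Fin 3 → Module.End k (MvPolynomial (Fin 3) k ⧸ I))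
    (i : Fin 3) {n : ℤ} {q} (hq : q ∈ hom w I a bQ n) :
    lead w I a bQ bV j u i q ∈ hom w I a bQ (n + j + w i) := by
  rw [← bQ.sum_repr q, map_sum]
  refine Submodule.sum_mem _ fun e _ => ?_
  rw [map_smul]
  by_cases h : om w a e = n
  · refine Submodule.smul_mem _ _ ?_
    rw [lead_basis, h]
    exact sy_mem_hom w I a bQ bV _ _
  · rw [hq e h, zero_smul]
    exact Submodule.zero_mem _

include hbQ hbV in
/-- The symbol of a triple whose curl is small is a cocycle. -/
theorem curl_lead {N : ℕ} (hN : idealOfVars (Fin 3) k ^ N ≤ I) {j : ℤ}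
    {u : Fin 3 → Module.End k (MvPolynomial (Fin 3) k ⧸ I)}
    (hu : u ∈ upT bV (om w a) w j)
    (hc : ∀ i, curl (op I) u i ∈ up bV (om w a) (j + 1 + (w 0 + w 1 + w 2) - w i)) :
    lead w I a bQ bV j u ∈ LinearMap.ker (curl (op (ini w I))) := by
  rw [LinearMap.mem_ker]
  funext l
  apply bQ.ext
  intro e
  set n := om w a e with hn
  set v := bV e with hv
  have hvn : v ∈ fil bV (om w a) n := basis_mem_fil bV (om w a) e
  have hsy : sy w I a bQ bV n v = bQ e := by
    rw [sy, hv, Module.Basis.constr_basis, if_pos hn.symm]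
  have h1 : ∀ i m, op (ini w I) i (lead w I a bQ bV j u m (sy w I a bQ bV n v))
      = sy w I a bQ bV (n + j + w m + w i) (op I i (u m v)) := by
    intro i m
    rw [lead_sy w I a bQ bV hu m hvn]
    refine ((op_mem_fil w I a bQ bV hbQ hbV hN i ?_).2).symm
    exact fil_anti bV (om w a) (by omega) (hu m _ _ hvn)
  have h2 : ∀ i m, lead w I a bQ bV j u m (op (ini w I) i (sy w I a bQ bV n v))
      = sy w I a bQ bV (n + j + w m + w i) (u m (op I i v)) := by
    intro i m
    obtain ⟨h3, h4⟩ := op_mem_fil w I a bQ bV hbQ hbV hN i hvn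
    rw [← h4, lead_sy w I a bQ bV hu m h3, show n + w i + j + w m = n + j + w m + w i by ring]
  have hsum : w (l + 1) + w (l + 2) + w l = w 0 + w 1 + w 2 := by
    match l with
    | 0 =>
      change w 1 + w 2 + w 0 = w 0 + w 1 + w 2
      ring
    | 1 =>
      change w 2 + w 0 + w 1 = w 0 + w 1 + w 2
      ring
    | 2 =>
      change w 0 + w 1 + w 2 = w 0 + w 1 + w 2
      ring
  have h5 : curl (op I) u l v ∈ fil bV (om w a) (n + j + w (l + 1) + w (l + 2) + 1) :=
    fil_anti bV (om w a) (by omega) (hc l _ _ hvn)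
  have h6 := sy_eq_zero w I a bQ bV h5
  rw [← hsy]
  simp only [curl, LinearMap.coe_mk, AddHom.coe_mk, LinearMap.sub_apply, Module.End.mul_apply,
    map_sub, Pi.zero_apply, LinearMap.zero_apply] at h6 ⊢
  rw [h1, h2, h1, h2]
  rw [show n + j + w (l + 2) + w (l + 1) = n + j + w (l + 1) + w (l + 2) by ring]
  exact h6

variable (D : MvPolynomial (Fin 3) k →ₗ[k] (MvPolynomial (Fin 3) k ⧸ ini w I))

include hbQ in
theorem D_monomial {j : ℤ} (u : Fin 3 → Module.End k (MvPolynomial (Fin 3) k ⧸ I))
    (hD1 : D 1 = 0)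
    (hD : ∀ i p, D (X i * p) = op (ini w I) i (D p)
      + lead w I a bQ bV j u i (Ideal.Quotient.mk (ini w I) p)) (N : ℕ) (e : Fin 3 →₀ ℕ)
    (he : e.degree = N) :
    D (monomial e 1) ∈ hom w I a bQ (Finsupp.weight w e + j) := by
  induction N generalizing e with
  | zero =>
    have h1 : e = 0 := by rwa [Finsupp.degree_eq_zero_iff] at he
    rw [h1]
    change D 1 ∈ _
    rw [hD1]
    exact Submodule.zero_mem _
  | succ N ih =>
    have h1 : e ≠ 0 := by
      rintro rfl
      rw [map_zero] at he
      omega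
    obtain ⟨i, hi⟩ := Finsupp.ne_iff.1 h1
    rw [Finsupp.zero_apply] at hi
    have hsingle : Finsupp.single i 1 ≤ e := by
      rw [Finsupp.single_le_iff]
      omega
    have he2 : e = Finsupp.single i 1 + (e - Finsupp.single i 1) := (add_tsub_cancel_of_le hsingle).symm
    set e' := e - Finsupp.single i 1 with he'
    have hw : Finsupp.weight w e = w i + Finsupp.weight w e' := by
      conv_lhs => rw [he2]
      rw [map_add, Finsupp.weight_single, one_smul]
    have hdeg : e'.degree = N := by
      have : e.degree = 1 + e'.degree := by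
        conv_lhs => rw [he2]
        rw [map_add, Finsupp.degree_single]
      omega
    have hm : (monomial e (1 : k) : MvPolynomial (Fin 3) k) = X i * monomial e' 1 := by
      rw [he2, X, monomial_mul, one_mul]
    rw [hm, hD]
    apply Submodule.add_mem
    · have h7 := op_mem_hom w I a bQ hbQ i (ih e' hdeg)
      rwa [show Finsupp.weight w e' + j + w i = Finsupp.weight w e + j by rw [hw]; ring] at h7
    · have h3 : Ideal.Quotient.mk (ini w I) (monomial e' 1) ∈ hom w I a bQ (Finsupp.weight w e') := by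
        have h4 := mk_comp_mem_hom w I a bQ hbQ (monomial e' 1) (Finsupp.weight w e')
        rwa [comp_monomial, if_pos rfl] at h4
      have h7 := lead_mem_hom w I a bQ bV (j := j) u i h3
      rwa [show Finsupp.weight w e' + j + w i = Finsupp.weight w e + j by rw [hw]; ring] at h7

end main

end Pool.Agent.H17.LF
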