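import Mathlib
import Pool.Agent.H17.LF.Lift

/-!
# Tangent vectors of the initial ideal which lift give exact cocycles
-/

set_option linter.unusedSectionVars false

open MvPolynomial

namespace Pool.Agent.H17.LF

open Pool.Agent.H13.Par

/-- `φ` is homogeneous of degree `j`. -/
def HomDeg {k : Type*} [Field k] (w : Fin 3 → ℤ) (j : ℤ) {L : Ideal (MvPolynomial (Fin 3) k)}
    (φ : L →ₗ[MvPolynomial (Fin 3) k] MvPolynomial (Fin 3) k ⧸ L) : Prop :=
  ∀ (n : ℤ) (p : L), IsWeightedHomogeneous w (p : MvPolynomial (Fin 3) k) n →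
    ∃ q, IsWeightedHomogeneous w q (n + j) ∧ φ p = Ideal.Quotient.mk L q

/-- `φ` is the leading form of degree `j` of `ψ`. -/
def LeadOf {k : Type*} [Field k] (w : Fin 3 → ℤ) (j : ℤ) {I L : Ideal (MvPolynomial (Fin 3) k)}
    (φ : L →ₗ[MvPolynomial (Fin 3) k] MvPolynomial (Fin 3) k ⧸ L)
    (ψ : I →ₗ[MvPolynomial (Fin 3) k] MvPolynomial (Fin 3) k ⧸ I) : Prop :=
  ∀ (n : ℤ) (f : I), (∀ m < n, weightedHomogeneousComponent w m (f : MvPolynomial (Fin 3) k) = 0) →
    ∃ g, (∀ m < n + j, weightedHomogeneousComponent w m g = 0) ∧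
      ψ f = Ideal.Quotient.mk I g ∧
      ∀ p : L, (p : MvPolynomial (Fin 3) k) = weightedHomogeneousComponent w n f →
        φ p = Ideal.Quotient.mk L (weightedHomogeneousComponent w (n + j) g)

section main

variable {k : Type*} [Field k] (w : Fin 3 → ℤ) (I : Ideal (MvPolynomial (Fin 3) k))
  {κ : Type} [Fintype κ] (a : κ → (Fin 3 →₀ ℕ))
  (bQ : Module.Basis κ k (MvPolynomial (Fin 3) k ⧸ ini w I))
  (bV : Module.Basis κ k (MvPolynomial (Fin 3) k ⧸ I))
  (hbQ : ∀ e, bQ e = Ideal.Quotient.mk (ini w I) (monomial (a e) 1))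
  (hbV : ∀ e, bV e = Ideal.Quotient.mk I (monomial (a e) 1))
  (D : MvPolynomial (Fin 3) k →ₗ[k] (MvPolynomial (Fin 3) k ⧸ ini w I))

theorem D_comp {j : ℤ}
    (hm : ∀ e : Fin 3 →₀ ℕ, D (monomial e 1) ∈ hom w I a bQ (Finsupp.weight w e + j))
    (p : MvPolynomial (Fin 3) k) (n : ℤ) :
    D (weightedHomogeneousComponent w n p) ∈ hom w I a bQ (n + j) := by
  induction p using MvPolynomial.induction_on' with
  | monomial e c =>
    rw [comp_monomial]
    split_ifs with h
    · have h2 : (monomial e c : MvPolynomial (Fin 3) k) = c • monomial e 1 := by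
        rw [smul_monomial, smul_eq_mul, mul_one]
      rw [h2, map_smul, ← h]
      exact Submodule.smul_mem _ _ (hm e)
    · rw [map_zero]
      exact Submodule.zero_mem _
  | add p q hp hq =>
    rw [map_add, map_add]
    exact Submodule.add_mem _ hp hq

theorem D_ord {j : ℤ}
    (hm : ∀ e : Fin 3 →₀ ℕ, D (monomial e 1) ∈ hom w I a bQ (Finsupp.weight w e + j))
    {p : MvPolynomial (Fin 3) k} {n : ℤ} (hp : p ∈ ord w n) :
    D p ∈ fil bQ (om w a) (n + j) := by
  rw [mem_ord_iff] at hp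
  rw [p.as_sum, map_sum]
  refine Submodule.sum_mem _ fun e he => ?_
  have h1 : n ≤ Finsupp.weight w e := by
    by_contra h
    rw [mem_support_iff] at he
    exact he (hp e (by omega))
  have h2 : (monomial e (coeff e p) : MvPolynomial (Fin 3) k) = coeff e p • monomial e 1 := by
    rw [smul_monomial, smul_eq_mul, mul_one]
  rw [h2, map_smul]
  exact Submodule.smul_mem _ _ (fil_anti bQ (om w a) (by omega)
    (hom_le_fil w I a bQ _ (hm e)))

theorem sy_th_D {j : ℤ}
    (hm : ∀ e : Fin 3 →₀ ℕ, D (monomial e 1) ∈ hom w I a bQ (Finsupp.weight w e + j))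
    {p : MvPolynomial (Fin 3) k} {n : ℤ} (hp : p ∈ ord w n) :
    sy w I a bQ bV (n + j) (th w I bQ bV (D p))
      = D (weightedHomogeneousComponent w n p) := by
  have h1 : p - weightedHomogeneousComponent w n p ∈ ord w (n + 1) :=
    sub_comp_mem_ord w hp (comp_mem_ord w n p) (comp_comp w n p).symm
  have h2 := D_ord w I a bQ D hm h1
  rw [show n + 1 + j = n + j + 1 by ring] at h2
  have h3 := sy_eq_zero w I a bQ bV (th_mem w I a bQ bV h2)
  rw [map_sub, map_sub, map_sub, sy_th_hom w I a bQ bV (D_comp w I a bQ D hm p n),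
    sub_eq_zero] at h3
  exact h3

include hbQ hbV in
/-- **Lifting.** -/
theorem exists_lift_of_lead {N : ℕ} (hN : idealOfVars (Fin 3) k ^ N ≤ I) {j : ℤ}
    (H : ∀ φ : ini w I →ₗ[MvPolynomial (Fin 3) k] MvPolynomial (Fin 3) k ⧸ ini w I,
      HomDeg w j φ → ∃ ψ : I →ₗ[MvPolynomial (Fin 3) k] MvPolynomial (Fin 3) k ⧸ I,
        LeadOf w j φ ψ)
    (u : Fin 3 → Module.End k (MvPolynomial (Fin 3) k ⧸ I))
    (hu : u ∈ upT bV (om w a) w j)
    (hc : ∀ i, curl (op I) u i ∈ up bV (om w a) (j + 1 + (w 0 + w 1 + w 2) - w i)) :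
    ∃ y ∈ LinearMap.ker (curl (op I)), y - u ∈ upT bV (om w a) w (j + 1) := by
  obtain ⟨D, hD1, hD⟩ := exists_D (ini w I) _ (curl_lead w I a bQ bV hbQ hbV hN hu hc)
  have hm : ∀ e : Fin 3 →₀ ℕ, D (monomial e 1) ∈ hom w I a bQ (Finsupp.weight w e + j) :=
    fun e => D_monomial w I a bQ bV hbQ D u hD1 hD _ e rfl
  let φ : ini w I →ₗ[MvPolynomial (Fin 3) k] MvPolynomial (Fin 3) k ⧸ ini w I :=
    { toFun := fun f => D f.1
      map_add' := fun f g => by rw [Submodule.coe_add, map_add]
      map_smul' := fun r f => by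
        rw [SetLike.val_smul, smul_eq_mul, RingHom.id_apply]
        exact D_smul (ini w I) _ D hD f.2 r }
  have hφ : ∀ f : ini w I, φ f = D f.1 := fun f => rfl
  have hφj : HomDeg w j φ := by
    intro n p hp
    have h1 := D_comp w I a bQ D hm p.1 n
    rw [hp.weightedHomogeneousComponent_same] at h1
    obtain ⟨q, hq, hq2⟩ := exists_of_hom w I a bQ hbQ h1
    exact ⟨q, hq, hq2.symm⟩
  obtain ⟨ψ, hψ⟩ := H φ hφj
  -- the correction
  have hst : ∀ v, sec I v - ta I a bV v ∈ I := by
    intro v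
    rw [← Ideal.Quotient.eq, mk_sec, mk_ta I a bV hbV]
  let A : Module.End k (MvPolynomial (Fin 3) k ⧸ I) :=
    { toFun := fun v => -(ψ ⟨sec I v - ta I a bV v, hst v⟩) - th w I bQ bV (D (ta I a bV v))
      map_add' := fun x y => by
        have h1 : (⟨sec I (x + y) - ta I a bV (x + y), hst (x + y)⟩ : I)
            = ⟨sec I x - ta I a bV x, hst x⟩ + ⟨sec I y - ta I a bV y, hst y⟩ := by
          apply Subtype.ext
          simp only [map_add, Submodule.coe_add]
          ring
        rw [h1, map_add, map_add, map_add, map_add]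
        abel
      map_smul' := fun c x => by
        have h1 : (⟨sec I (c • x) - ta I a bV (c • x), hst (c • x)⟩ : I)
            = c • ⟨sec I x - ta I a bV x, hst x⟩ := by
          apply Subtype.ext
          change sec I (c • x) - ta I a bV (c • x) = c • (sec I x - ta I a bV x)
          rw [map_smul, map_smul, smul_sub]
        rw [h1, LinearMap.map_smul_of_tower, map_smul, map_smul, map_smul, RingHom.id_apply,
          smul_sub, smul_neg] }
  have hA : ∀ v, A v = -(ψ ⟨sec I v - ta I a bV v, hst v⟩) - th w I bQ bV (D (ta I a bV v)) :=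
    fun v => rfl
  have htx : ∀ i v, X i * ta I a bV v - ta I a bV (op I i v) ∈ I := by
    intro i v
    rw [← Ideal.Quotient.eq, map_mul, mk_ta I a bV hbV, mk_ta I a bV hbV]
    rfl
  have hy : ∀ i v, (coc I ψ + gauge (op I) A) i v
      = ψ ⟨X i * ta I a bV v - ta I a bV (op I i v), htx i v⟩
        - op I i (th w I bQ bV (D (ta I a bV v))) + th w I bQ bV (D (ta I a bV (op I i v))) := by
    intro i v
    have h1 : (⟨X i * ta I a bV v - ta I a bV (op I i v), htx i v⟩ : I)
        = ⟨X i * sec I v - sec I ((X i : MvPolynomial (Fin 3) k) • v), sec_mem I i v⟩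
          - (X i : MvPolynomial (Fin 3) k) • (⟨sec I v - ta I a bV v, hst v⟩ : I)
          + ⟨sec I (op I i v) - ta I a bV (op I i v), hst (op I i v)⟩ := by
      apply Subtype.ext
      simp only [Submodule.coe_add, Submodule.coe_sub, SetLike.val_smul, smul_eq_mul,
        ← op_apply]
      ring
    have h2 : (coc I ψ + gauge (op I) A) i v = coc I ψ i v + (op I i (A v) - A (op I i v)) := rfl
    rw [h2, coc_apply, hA, hA, h1, map_add ψ, map_sub ψ, map_smul ψ, map_sub (op I i),
      map_neg (op I i), op_apply I i (ψ ⟨sec I v - ta I a bV v, hst v⟩)]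
    abel
  refine ⟨coc I ψ + gauge (op I) A, Submodule.add_mem _ (coc_mem I ψ) (gauge_mem I A), ?_⟩
  intro i
  apply up_of_basis
  intro e
  set n := om w a e with hn
  set v := bV e with hv
  have hvn : v ∈ fil bV (om w a) n := basis_mem_fil bV (om w a) e
  have htav : ta I a bV v = monomial (a e) 1 := by
    rw [ta, hv, Module.Basis.constr_basis]
  have hcomp : weightedHomogeneousComponent w n (ta I a bV v) = ta I a bV v := by
    rw [htav, comp_monomial, if_pos (show Finsupp.weight w (a e) = n from hn.symm)]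
  have hov : ta I a bV v ∈ ord w n := ta_mem_ord w I a bV hvn
  obtain ⟨hxv, hxs⟩ := op_mem_fil w I a bQ bV hbQ hbV hN i hvn
  have hox : ta I a bV (op I i v) ∈ ord w (n + w i) := ta_mem_ord w I a bV hxv
  have hof : X i * ta I a bV v - ta I a bV (op I i v) ∈ ord w (n + w i) :=
    Submodule.sub_mem _ (X_mul_mem_ord w i hov) hox
  obtain ⟨g, hg, hψg, hφg⟩ := hψ (n + w i)
    ⟨X i * ta I a bV v - ta I a bV (op I i v), htx i v⟩ hof
  have h1 : ψ ⟨X i * ta I a bV v - ta I a bV (op I i v), htx i v⟩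
      ∈ fil bV (om w a) (n + w i + j) := by
    rw [hψg]
    exact (mk_mem_fil w I a bQ bV hbQ hbV hN hg).1
  have h2 : sy w I a bQ bV (n + w i + j)
      (ψ ⟨X i * ta I a bV v - ta I a bV (op I i v), htx i v⟩)
      = D (X i * ta I a bV v - weightedHomogeneousComponent w (n + w i) (ta I a bV (op I i v))) := by
    rw [hψg, sy_mk w I a bQ bV hbQ hbV hN hg]
    have h3 := hφg ⟨weightedHomogeneousComponent w (n + w i)
      (X i * ta I a bV v - ta I a bV (op I i v)), comp_mem_ini w I (htx i v) hof⟩ rfl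
    rw [← h3, hφ]
    change D (weightedHomogeneousComponent w (n + w i)
      (X i * ta I a bV v - ta I a bV (op I i v))) = _
    rw [map_sub (weightedHomogeneousComponent w (n + w i)), comp_X_mul, hcomp]
  have h4 : th w I bQ bV (D (ta I a bV v)) ∈ fil bV (om w a) (n + j) :=
    th_mem w I a bQ bV (D_ord w I a bQ D hm hov)
  have h5 := sy_th_D w I a bQ bV D hm hov
  rw [hcomp] at h5
  obtain ⟨h6, h7⟩ := op_mem_fil w I a bQ bV hbQ hbV hN i h4
  rw [h5, show n + j + w i = n + w i + j by ring] at h7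
  rw [show n + j + w i = n + w i + j by ring] at h6
  have h8 : th w I bQ bV (D (ta I a bV (op I i v))) ∈ fil bV (om w a) (n + w i + j) :=
    th_mem w I a bQ bV (D_ord w I a bQ D hm hox)
  have h9 := sy_th_D w I a bQ bV D hm hox
  have h10 : u i v ∈ fil bV (om w a) (n + w i + j) := by
    have := hu i _ _ hvn
    rwa [show n + (j + w i) = n + w i + j by ring] at this
  have h11 : sy w I a bQ bV (n + w i + j) (u i v)
      = lead w I a bQ bV j u i (Ideal.Quotient.mk (ini w I) (ta I a bV v)) := by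
    rw [htav, ← hbQ, lead_basis, ← hn, show n + w i + j = n + j + w i by ring]
  have h12 : (coc I ψ + gauge (op I) A - u) i v ∈ fil bV (om w a) (n + w i + j) := by
    change (coc I ψ + gauge (op I) A) i v - u i v ∈ _
    rw [hy]
    exact Submodule.sub_mem _ (Submodule.add_mem _ (Submodule.sub_mem _ h1 h6) h8) h10
  have h13 : sy w I a bQ bV (n + w i + j) ((coc I ψ + gauge (op I) A - u) i v) = 0 := by
    change sy w I a bQ bV (n + w i + j) ((coc I ψ + gauge (op I) A) i v - u i v) = 0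
    rw [hy, map_sub, map_add, map_sub, h2, h7, h9, h11, map_sub, hD]
    abel
  have h14 := mem_fil_succ w I a bQ bV h12 h13
  rwa [show n + w i + j + 1 = n + (j + 1 + w i) by ring] at h14

end main

section final

variable {k : Type*} [Field k] (w : Fin 3 → ℤ) (I : Ideal (MvPolynomial (Fin 3) k))

/-- **Parity from lifting.** -/
theorem parity_of_lead (hodd : Odd (w 0 + w 1 + w 2)) {N : ℕ}
    (hN : idealOfVars (Fin 3) k ^ N ≤ I)
    (H : ∀ j : ℤ, 2 * j < -(w 0 + w 1 + w 2) →
      ∀ φ : ini w I →ₗ[MvPolynomial (Fin 3) k] MvPolynomial (Fin 3) k ⧸ ini w I,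
      HomDeg w j φ → ∃ ψ : I →ₗ[MvPolynomial (Fin 3) k] MvPolynomial (Fin 3) k ⧸ I,
        LeadOf w j φ ψ) :
    Module.Finite k (MvPolynomial (Fin 3) k ⧸ I) ∧
    Module.finrank k (I →ₗ[MvPolynomial (Fin 3) k] MvPolynomial (Fin 3) k ⧸ I)
      ≡ Module.finrank k (MvPolynomial (Fin 3) k ⧸ I) [MOD 2] := by
  obtain ⟨κ, hκ, a, bQ, bV, hbQ, hbV⟩ := exists_bases w I hN
  have hfin : Module.Finite k (MvPolynomial (Fin 3) k ⧸ I) := Module.Finite.of_basis bV
  refine ⟨hfin, ?_⟩
  have h1 := even_rank_of_lift bV (om w a) w (op I)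
    (fun i => op_mem_up w I a bQ bV hbQ hbV hN i) hodd
    (fun j hj u hu hc => exists_lift_of_lead w I a bQ bV hbQ hbV hN (H j hj) u hu hc)
  have h2 := finrank_hom_add_rank I
  obtain ⟨r, hr⟩ := h1
  rw [Nat.ModEq]
  omega

end final

end Pool.Agent.H17.LF
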