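import Mathlib
import Pool.Agent.H17.LF.Main
import Pool.Agent.H17.LF.Gr

/-!
# Comparison of an ideal with its initial ideal
-/

set_option linter.unusedSectionVars false

open MvPolynomial

namespace Pool.Agent.H17.LF

open Pool.Agent.H13.Par

section generic

variable {k V V' κ : Type*} [Field k] [AddCommGroup V] [Module k V] [AddCommGroup V'] [Module k V']
  [Fintype κ] (b : Module.Basis κ k V) (b' : Module.Basis κ k V') (ω : κ → ℤ) (w : Fin 3 → ℤ)

theorem grg_eq_zero {m : ℤ} {A : Module.End k V} (hA : A ∈ up b ω (m + 1)) :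
    grg b b' ω m A = 0 := by
  apply b'.ext
  intro e
  rw [grg_basis, LinearMap.zero_apply]
  apply syg_eq_zero
  have := hA _ _ (basis_mem_fil b ω e)
  rwa [← add_assoc] at this

theorem curl_grT {X u : Fin 3 → Module.End k V} (hX : ∀ i, X i ∈ up b ω (w i)) {j : ℤ}
    (hu : u ∈ upT b ω w j) (l : Fin 3) :
    curl (fun i => grg b b' ω (w i) (X i)) (grT b b' ω w j u) l
      = grg b b' ω (j + (w 0 + w 1 + w 2) - w l) (curl X u l) := by
  have e1 : ∀ i m : Fin 3, grg b b' ω (j + w m + w i) (X i * u m)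
      = grg b b' ω (w i) (X i) * grg b b' ω (j + w m) (u m) := fun i m =>
    grg_mul b b' ω (hX i) (hu m)
  have e2 : ∀ i m : Fin 3, grg b b' ω (j + w m + w i) (u m * X i)
      = grg b b' ω (j + w m) (u m) * grg b b' ω (w i) (X i) := fun i m => by
    rw [← grg_mul b b' ω (hu m) (hX i), add_comm (w i)]
  have hsum : w (l + 1) + w (l + 2) + w l = w 0 + w 1 + w 2 := by
    match l with
    | 0 =>
      change w 1 + w 2 + w 0 = w 0 + w 1 + w 2
      ring
    | 1 =>
      change w 2 + w 0 + w 1 = w 0 + w 1 + w 2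
      ring
    | 2 =>
      change w 0 + w 1 + w 2 = w 0 + w 1 + w 2
      ring
  have d1 : j + (w 0 + w 1 + w 2) - w l = j + w (l + 2) + w (l + 1) := by linarith
  have d2 : j + (w 0 + w 1 + w 2) - w l = j + w (l + 1) + w (l + 2) := by linarith
  simp only [curl, LinearMap.coe_mk, AddHom.coe_mk, grT_apply, map_sub]
  rw [← e1, ← e2, ← e1, ← e2, ← d1, ← d2]

theorem grg_self_sub {m : ℤ} {A : Module.End k V} (hA : A ∈ up b ω m) :
    grg b b ω m A - A ∈ up b ω (m + 1) := by
  apply up_of_basis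
  intro e e' he'
  rw [LinearMap.sub_apply, grg_basis, map_sub, Finsupp.sub_apply, syg_repr]
  by_cases h : ω e' = ω e + m
  · rw [if_pos h, sub_self]
  · rw [if_neg h, zero_sub, neg_eq_zero]
    exact hA _ _ (basis_mem_fil b ω e) e' (by omega)

theorem grT_self_sub {j : ℤ} {u : Fin 3 → Module.End k V} (hu : u ∈ upT b ω w j) :
    grT b b ω w j u - u ∈ upT b ω w (j + 1) := by
  intro i
  have := grg_self_sub b ω (hu i)
  rwa [show j + w i + 1 = j + 1 + w i by ring] at this

/-- Lifting holds for homogeneous triples. -/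
theorem lift_of_homogeneous {X : Fin 3 → Module.End k V} (hX : ∀ i, X i ∈ up b ω (w i))
    (hX0 : ∀ i, grg b b ω (w i) (X i) = X i) (j : ℤ) (u : Fin 3 → Module.End k V)
    (hu : u ∈ upT b ω w j)
    (hc : ∀ i, curl X u i ∈ up b ω (j + 1 + (w 0 + w 1 + w 2) - w i)) :
    ∃ y ∈ LinearMap.ker (curl X), y - u ∈ upT b ω w (j + 1) := by
  refine ⟨grT b b ω w j u, ?_, grT_self_sub b ω w hu⟩
  rw [LinearMap.mem_ker]
  funext l
  have h1 := curl_grT b b ω w hX hu l
  have h2 : (fun i => grg b b ω (w i) (X i)) = X := funext hX0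
  rw [h2] at h1
  rw [h1, Pi.zero_apply]
  apply grg_eq_zero
  have := hc l
  rwa [show j + 1 + (w 0 + w 1 + w 2) - w l = j + (w 0 + w 1 + w 2) - w l + 1 by ring] at this

end generic

/-- Every tangent vector of the initial ideal of degree below `-|w|/2` is the leading form of a
tangent vector of `I`. -/
def NegLift {k : Type*} [Field k] (w : Fin 3 → ℤ) (I : Ideal (MvPolynomial (Fin 3) k)) : Prop :=
  ∀ j : ℤ, 2 * j < -(w 0 + w 1 + w 2) →
    ∀ φ : ini w I →ₗ[MvPolynomial (Fin 3) k] MvPolynomial (Fin 3) k ⧸ ini w I,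
    HomDeg w j φ → ∃ ψ : I →ₗ[MvPolynomial (Fin 3) k] MvPolynomial (Fin 3) k ⧸ I,
      LeadOf w j φ ψ

section compare

variable {k : Type*} [Field k] (w : Fin 3 → ℤ) (I : Ideal (MvPolynomial (Fin 3) k))
  {κ : Type} [Fintype κ] (a : κ → (Fin 3 →₀ ℕ))
  (bQ : Module.Basis κ k (MvPolynomial (Fin 3) k ⧸ ini w I))
  (bV : Module.Basis κ k (MvPolynomial (Fin 3) k ⧸ I))
  (hbQ : ∀ e, bQ e = Ideal.Quotient.mk (ini w I) (monomial (a e) 1))
  (hbV : ∀ e, bV e = Ideal.Quotient.mk I (monomial (a e) 1))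

include hbQ in
theorem basis_mem_hom (e : κ) : bQ e ∈ hom w I a bQ (om w a e) := by
  have h := mk_comp_mem_hom w I a bQ hbQ (monomial (a e) 1) (om w a e)
  rwa [comp_monomial, if_pos (show Finsupp.weight w (a e) = om w a e from rfl), ← hbQ] at h

include hbQ in
theorem opL_mem_up (i : Fin 3) : op (ini w I) i ∈ up bQ (om w a) (w i) := by
  apply up_of_basis
  intro e
  exact hom_le_fil w I a bQ _ (op_mem_hom w I a bQ hbQ i (basis_mem_hom w I a bQ hbQ e))

include hbQ in
theorem grg_opL (i : Fin 3) : grg bQ bQ (om w a) (w i) (op (ini w I) i) = op (ini w I) i := by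
  apply bQ.ext
  intro e
  apply bQ.repr.injective
  ext e'
  rw [grg_basis, syg_repr]
  split_ifs with h
  · rfl
  · exact (op_mem_hom w I a bQ hbQ i (basis_mem_hom w I a bQ hbQ e) e' h).symm

include hbQ hbV in
theorem grg_opI {N : ℕ} (hN : idealOfVars (Fin 3) k ^ N ≤ I) (i : Fin 3) :
    grg bV bQ (om w a) (w i) (op I i) = op (ini w I) i := by
  apply bQ.ext
  intro e
  rw [grg_basis]
  have h1 := (op_mem_fil w I a bQ bV hbQ hbV hN i (basis_mem_fil bV (om w a) e)).2
  have h2 : sy w I a bQ bV (om w a e) (bV e) = bQ e := by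
    rw [sy, Module.Basis.constr_basis, if_pos rfl]
  rw [h2] at h1
  exact h1

end compare

section final

variable {k : Type*} [Field k] (w : Fin 3 → ℤ) (I : Ideal (MvPolynomial (Fin 3) k))

/-- **Comparison of an ideal with its initial ideal.** -/
theorem parity_ini {N : ℕ} (hN : idealOfVars (Fin 3) k ^ N ≤ I) (H : NegLift w I) :
    Module.Finite k (MvPolynomial (Fin 3) k ⧸ I) ∧
    Module.Finite k (MvPolynomial (Fin 3) k ⧸ ini w I) ∧
    Module.finrank k (MvPolynomial (Fin 3) k ⧸ I)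
      = Module.finrank k (MvPolynomial (Fin 3) k ⧸ ini w I) ∧
    (Odd (w 0 + w 1 + w 2) →
      Module.finrank k (I →ₗ[MvPolynomial (Fin 3) k] MvPolynomial (Fin 3) k ⧸ I)
        ≡ Module.finrank k (MvPolynomial (Fin 3) k ⧸ I) [MOD 2]) ∧
    Module.finrank k (I →ₗ[MvPolynomial (Fin 3) k] MvPolynomial (Fin 3) k ⧸ I)
      ≡ Module.finrank k (ini w I →ₗ[MvPolynomial (Fin 3) k]
        MvPolynomial (Fin 3) k ⧸ ini w I) [MOD 2] := by
  obtain ⟨κ, hκ, a, bQ, bV, hbQ, hbV⟩ := exists_bases w I hN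
  have hfinV : Module.Finite k (MvPolynomial (Fin 3) k ⧸ I) := Module.Finite.of_basis bV
  have hfinQ : Module.Finite k (MvPolynomial (Fin 3) k ⧸ ini w I) := Module.Finite.of_basis bQ
  have hd : Module.finrank k (MvPolynomial (Fin 3) k ⧸ I)
      = Module.finrank k (MvPolynomial (Fin 3) k ⧸ ini w I) := by
    rw [Module.finrank_eq_card_basis bV, Module.finrank_eq_card_basis bQ]
  have hXV : ∀ i, op I i ∈ up bV (om w a) (w i) :=
    fun i => op_mem_up w I a bQ bV hbQ hbV hN i
  have hXQ : ∀ i, op (ini w I) i ∈ up bQ (om w a) (w i) :=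
    fun i => opL_mem_up w I a bQ hbQ i
  have hlV : ∀ j : ℤ, 2 * j < -(w 0 + w 1 + w 2) → ∀ u ∈ upT bV (om w a) w j,
      (∀ i, curl (op I) u i ∈ up bV (om w a) (j + 1 + (w 0 + w 1 + w 2) - w i)) →
      ∃ y ∈ LinearMap.ker (curl (op I)), y - u ∈ upT bV (om w a) w (j + 1) :=
    fun j hj u hu hc => exists_lift_of_lead w I a bQ bV hbQ hbV hN (H j hj) u hu hc
  have hlQ : ∀ j : ℤ, 2 * j < -(w 0 + w 1 + w 2) → ∀ u ∈ upT bQ (om w a) w j,
      (∀ i, curl (op (ini w I)) u i ∈ up bQ (om w a) (j + 1 + (w 0 + w 1 + w 2) - w i)) →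
      ∃ y ∈ LinearMap.ker (curl (op (ini w I))), y - u ∈ upT bQ (om w a) w (j + 1) :=
    fun j _ u hu hc => lift_of_homogeneous bQ (om w a) w hXQ
      (fun i => grg_opL w I a bQ hbQ i) j u hu hc
  have h2 := finrank_hom_add_rank I
  have h3 := finrank_hom_add_rank (ini w I)
  refine ⟨hfinV, hfinQ, hd, fun hodd => ?_, ?_⟩
  · obtain ⟨r, hr⟩ := even_rank_of_lift bV (om w a) w (op I) hXV hodd hlV
    rw [Nat.ModEq]
    omega
  · rcases Int.even_or_odd (w 0 + w 1 + w 2) with heven | hodd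
    · obtain ⟨r, hr⟩ := heven
      have hc : 2 * (-r) + (w 0 + w 1 + w 2) = 0 := by omega
      have h4 := rank_curl_mod bV bQ (om w a) w (op I) hXV hc hlV
      have h5 := rank_curl_mod bQ bQ (om w a) w (op (ini w I)) hXQ hc hlQ
      have h6 : (fun i => grg bV bQ (om w a) (w i) (op I i)) = op (ini w I) :=
        funext fun i => grg_opI w I a bQ bV hbQ hbV hN i
      have h7 : (fun i => grg bQ bQ (om w a) (w i) (op (ini w I) i)) = op (ini w I) :=
        funext fun i => grg_opL w I a bQ hbQ i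
      rw [h6] at h4
      rw [h7] at h5
      have h8 := h4.trans h5.symm
      rw [hd] at h2
      rw [Nat.ModEq] at h8 ⊢
      omega
    · obtain ⟨r, hr⟩ := even_rank_of_lift bV (om w a) w (op I) hXV hodd hlV
      obtain ⟨r', hr'⟩ := even_rank_of_lift bQ (om w a) w (op (ini w I)) hXQ hodd hlQ
      rw [hd] at h2
      rw [Nat.ModEq]
      omega

end final

end Pool.Agent.H17.LF
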