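import Mathlib
import Pool.Agent.H13.ParTangent

/-!
# The dimension of the tangent space depends only on the coordinate ring
-/

set_option linter.unusedSectionVars false

open MvPolynomial

namespace Pool.Agent.H17.LF

open Pool.Agent.H13.Par

section coc

variable {k : Type*} [Field k] (J : Ideal (MvPolynomial (Fin 3) k))

theorem sec_mem' (f : MvPolynomial (Fin 3) k) (v : MvPolynomial (Fin 3) k ⧸ J) :
    f * sec J v - sec J (Ideal.Quotient.mk J f * v) ∈ J := by
  rw [← Ideal.Quotient.eq, map_mul, mk_sec, mk_sec]

/-- The value of the derivation of a tangent vector on a polynomial. -/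
noncomputable def cocF (φ : J →ₗ[MvPolynomial (Fin 3) k] MvPolynomial (Fin 3) k ⧸ J)
    (f : MvPolynomial (Fin 3) k) : Module.End k (MvPolynomial (Fin 3) k ⧸ J) where
  toFun v := φ ⟨f * sec J v - sec J (Ideal.Quotient.mk J f * v), sec_mem' J f v⟩
  map_add' v w := by
    rw [← map_add]
    congr 1
    apply Subtype.ext
    simp only [map_add, mul_add, Submodule.coe_add]
    ring
  map_smul' c v := by
    rw [RingHom.id_apply, ← LinearMap.map_smul_of_tower]
    congr 1
    apply Subtype.ext
    simp only [map_smul, mul_smul_comm]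
    rw [← smul_sub]
    rfl

theorem cocF_apply (φ : J →ₗ[MvPolynomial (Fin 3) k] MvPolynomial (Fin 3) k ⧸ J)
    (f : MvPolynomial (Fin 3) k) (v : MvPolynomial (Fin 3) k ⧸ J) :
    cocF J φ f v = φ ⟨f * sec J v - sec J (Ideal.Quotient.mk J f * v), sec_mem' J f v⟩ := rfl

theorem mk_mul_eq_smul (f : MvPolynomial (Fin 3) k) (v : MvPolynomial (Fin 3) k ⧸ J) :
    Ideal.Quotient.mk J f * v = f • v := by
  obtain ⟨g, rfl⟩ := Ideal.Quotient.mk_surjective v
  rw [← map_mul]
  rfl

theorem cocF_symm (φ : J →ₗ[MvPolynomial (Fin 3) k] MvPolynomial (Fin 3) k ⧸ J)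
    (f g : MvPolynomial (Fin 3) k) (v : MvPolynomial (Fin 3) k ⧸ J) :
    Ideal.Quotient.mk J f * cocF J φ g v - cocF J φ g (Ideal.Quotient.mk J f * v)
      = Ideal.Quotient.mk J g * cocF J φ f v - cocF J φ f (Ideal.Quotient.mk J g * v) := by
  rw [mk_mul_eq_smul J f (cocF J φ g v), mk_mul_eq_smul J g (cocF J φ f v), cocF_apply, cocF_apply,
    cocF_apply, cocF_apply, ← map_smul, ← map_smul, ← map_sub, ← map_sub]
  congr 1
  apply Subtype.ext
  simp only [Submodule.coe_sub, SetLike.val_smul, smul_eq_mul]
  rw [mul_left_comm (Ideal.Quotient.mk J g) (Ideal.Quotient.mk J f) v]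
  ring

theorem coc_eq_cocF (φ : J →ₗ[MvPolynomial (Fin 3) k] MvPolynomial (Fin 3) k ⧸ J) (i : Fin 3) :
    coc J φ i = cocF J φ (X i) := by
  refine LinearMap.ext fun v => ?_
  rw [coc_apply, cocF_apply]
  congr 1

end coc

section pair

variable {k : Type*} [Field k] (J : Ideal (MvPolynomial (Fin 3) k))
  (y : Fin 3 → MvPolynomial (Fin 3) k ⧸ J)

/-- Multiplication by a triple of elements. -/
noncomputable def mulT (i : Fin 3) : Module.End k (MvPolynomial (Fin 3) k ⧸ J) := LinearMap.mulLeft k (y i)

/-- Cocycles for the union of the coordinates and a second triple. -/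
def pairZ : Submodule k ((Fin 3 → Module.End k (MvPolynomial (Fin 3) k ⧸ J)) ×
    (Fin 3 → Module.End k (MvPolynomial (Fin 3) k ⧸ J))) where
  carrier := {p | p.1 ∈ LinearMap.ker (curl (op J)) ∧ p.2 ∈ LinearMap.ker (curl (mulT J y)) ∧
    ∀ i j, op J i * p.2 j - p.2 j * op J i = mulT J y j * p.1 i - p.1 i * mulT J y j}
  add_mem' := by
    rintro p q ⟨h1, h2, h3⟩ ⟨h4, h5, h6⟩
    refine ⟨Submodule.add_mem _ h1 h4, Submodule.add_mem _ h2 h5, fun i j => ?_⟩
    have e1 := h3 i j
    have e2 := h6 i j
    simp only [Prod.fst_add, Prod.snd_add, Pi.add_apply, mul_add, add_mul]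
    rw [add_sub_add_comm, e1, e2, add_sub_add_comm]
  zero_mem' := by
    refine ⟨Submodule.zero_mem _, Submodule.zero_mem _, fun i j => ?_⟩
    simp
  smul_mem' := by
    rintro c p ⟨h1, h2, h3⟩
    refine ⟨Submodule.smul_mem _ c h1, Submodule.smul_mem _ c h2, fun i j => ?_⟩
    have e1 := h3 i j
    have e2 := congrArg (fun z => c • z) e1
    simp only [smul_sub] at e2
    simp only [Prod.smul_fst, Prod.smul_snd, Pi.smul_apply, mul_smul_comm, smul_mul_assoc]
    exact e2

theorem commute_gen (hy : Algebra.adjoin k (Set.range y) = ⊤)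
    (u : Module.End k (MvPolynomial (Fin 3) k ⧸ J))
    (hu : ∀ j, mulT J y j * u - u * mulT J y j = 0) (v : MvPolynomial (Fin 3) k ⧸ J) :
    u v = v * u 1 := by
  have h1 : ∀ a : MvPolynomial (Fin 3) k ⧸ J, ∀ b, u (a * b) = a * u b := by
    intro a
    have ha : a ∈ Algebra.adjoin k (Set.range y) := by
      rw [hy]
      trivial
    induction ha using Algebra.adjoin_induction with
    | mem a ha =>
      obtain ⟨j, rfl⟩ := ha
      intro b
      have h2 := LinearMap.congr_fun (hu j) b
      change y j * u b - u (y j * b) = 0 at h2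
      exact (sub_eq_zero.1 h2).symm
    | algebraMap c =>
      intro b
      rw [← Algebra.smul_def, map_smul]
      exact Algebra.smul_def c (u b)
    | add a a' _ _ h h' =>
      intro b
      rw [add_mul, map_add, h, h', add_mul]
    | mul a a' _ _ h h' =>
      intro b
      rw [mul_assoc, h, h', mul_assoc]
  have h3 := h1 v 1
  rwa [mul_one] at h3

/-- The cocycle space of the coordinates is at most that of any generating triple. -/
theorem finrank_ker_le [Module.Finite k (MvPolynomial (Fin 3) k ⧸ J)]
    (hy : Algebra.adjoin k (Set.range y) = ⊤) :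
    Module.finrank k (LinearMap.ker (curl (op J)))
      ≤ Module.finrank k (LinearMap.ker (curl (mulT J y))) := by
  let π1 : pairZ J y →ₗ[k] LinearMap.ker (curl (op J)) :=
    ((LinearMap.fst k _ _).comp (pairZ J y).subtype).codRestrict _ (fun p => p.2.1)
  let π2 : pairZ J y →ₗ[k] LinearMap.ker (curl (mulT J y)) :=
    ((LinearMap.snd k _ _).comp (pairZ J y).subtype).codRestrict _ (fun p => p.2.2.1)
  have hπ1 : Function.Surjective π1 := by
    rintro ⟨u, hu⟩
    have hu2 : u ∈ LinearMap.range (comb J) := by
      rw [range_comb]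
      exact hu
    obtain ⟨⟨φ, c⟩, hφ⟩ := hu2
    rw [comb_apply] at hφ
    choose f hf using fun j => Ideal.Quotient.mk_surjective (y j)
    let v : Fin 3 → Module.End k (MvPolynomial (Fin 3) k ⧸ J) := fun j => cocF J φ (f j) + (mulT J y j * c - c * mulT J y j)
    have hv : ∀ j b, v j b = cocF J φ (f j) b + (y j * c b - c (y j * b)) := fun j b => rfl
    have hub : ∀ i b, u i b = cocF J φ (X i) b
        + (Ideal.Quotient.mk J (X i) * c b - c (Ideal.Quotient.mk J (X i) * b)) := by
      intro i b
      rw [← coc_eq_cocF, ← hφ]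
      rfl
    refine ⟨⟨(u, v), hu, ?_, ?_⟩, rfl⟩
    · rw [mem_ker_curl]
      intro i j
      refine LinearMap.ext fun b => ?_
      change y i * v j b - v j (y i * b) = y j * v i b - v i (y j * b)
      rw [hv, hv, hv, hv]
      have h1 := cocF_symm J φ (f i) (f j) b
      rw [hf, hf] at h1
      have h2 : y i * (cocF J φ (f j) b + (y j * c b - c (y j * b)))
          - (cocF J φ (f j) (y i * b) + (y j * c (y i * b) - c (y j * (y i * b))))
          = (y i * cocF J φ (f j) b - cocF J φ (f j) (y i * b))
            + (y i * y j * c b - y i * c (y j * b) - y j * c (y i * b) + c (y j * (y i * b))) := by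
        ring
      have h3 : y j * (cocF J φ (f i) b + (y i * c b - c (y i * b)))
          - (cocF J φ (f i) (y j * b) + (y i * c (y j * b) - c (y i * (y j * b))))
          = (y j * cocF J φ (f i) b - cocF J φ (f i) (y j * b))
            + (y i * y j * c b - y i * c (y j * b) - y j * c (y i * b) + c (y i * (y j * b))) := by
        ring
      rw [h2, h3, h1, mul_left_comm (y j) (y i) b]
    · intro i j
      refine LinearMap.ext fun b => ?_
      change op J i (v j b) - v j (op J i b) = y j * u i b - u i (y j * b)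
      have ho : ∀ b, op J i b = Ideal.Quotient.mk J (X i) * b := fun b => rfl
      rw [ho, ho, hv, hv, hub, hub]
      have h1 := cocF_symm J φ (X i) (f j) b
      rw [hf] at h1
      set x := Ideal.Quotient.mk J (X i) with hx
      have h2 : x * (cocF J φ (f j) b + (y j * c b - c (y j * b)))
          - (cocF J φ (f j) (x * b) + (y j * c (x * b) - c (y j * (x * b))))
          = (x * cocF J φ (f j) b - cocF J φ (f j) (x * b))
            + (x * y j * c b - x * c (y j * b) - y j * c (x * b) + c (y j * (x * b))) := by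
        ring
      have h3 : y j * (cocF J φ (X i) b + (x * c b - c (x * b)))
          - (cocF J φ (X i) (y j * b) + (x * c (y j * b) - c (x * (y j * b))))
          = (y j * cocF J φ (X i) b - cocF J φ (X i) (y j * b))
            + (x * y j * c b - x * c (y j * b) - y j * c (x * b) + c (x * (y j * b))) := by
        ring
      rw [h2, h3, h1, mul_left_comm (y j) x b]
  have hk1 := LinearMap.finrank_range_add_finrank_ker (K := k) (V := ↥(pairZ J y))
    (V₂ := ↥(LinearMap.ker (curl (op J)))) π1
  rw [LinearMap.range_eq_top.2 hπ1, finrank_top] at hk1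
  have hk2 := LinearMap.finrank_range_add_finrank_ker (K := k) (V := ↥(pairZ J y))
    (V₂ := ↥(LinearMap.ker (curl (mulT J y)))) π2
  have hr2 : Module.finrank k (LinearMap.range π2)
      ≤ Module.finrank k (LinearMap.ker (curl (mulT J y))) := Submodule.finrank_le _
  -- lower bound for the first kernel
  have hl1 : Module.finrank k (Fin 3 → MvPolynomial (Fin 3) k ⧸ J) ≤ Module.finrank k (LinearMap.ker π1) := by
    have hmem : ∀ a : Fin 3 → MvPolynomial (Fin 3) k ⧸ J, ((0 : Fin 3 → Module.End k (MvPolynomial (Fin 3) k ⧸ J)),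
        (fun j => LinearMap.mulLeft k (a j) : Fin 3 → Module.End k (MvPolynomial (Fin 3) k ⧸ J))) ∈ pairZ J y := by
      intro a
      refine ⟨Submodule.zero_mem _, ?_, ?_⟩
      · rw [mem_ker_curl]
        intro i j
        refine LinearMap.ext fun b => ?_
        change y i * (a j * b) - a j * (y i * b) = y j * (a i * b) - a i * (y j * b)
        ring
      · intro i j
        refine LinearMap.ext fun b => ?_
        change Ideal.Quotient.mk J (X i) * (a j * b) - a j * (Ideal.Quotient.mk J (X i) * b)
          = y j * 0 - 0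
        ring
    let ι : (Fin 3 → MvPolynomial (Fin 3) k ⧸ J) →ₗ[k] LinearMap.ker π1 :=
      { toFun := fun a => ⟨⟨_, hmem a⟩, rfl⟩
        map_add' := fun a a' => by
          apply Subtype.ext
          apply Subtype.ext
          refine Prod.ext ?_ ?_
          · change (0 : Fin 3 → Module.End k (MvPolynomial (Fin 3) k ⧸ J)) = 0 + 0
            rw [add_zero]
          · funext j
            refine LinearMap.ext fun b => ?_
            change (a j + a' j) * b = a j * b + a' j * b
            ring
        map_smul' := fun c a => by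
          apply Subtype.ext
          apply Subtype.ext
          refine Prod.ext ?_ ?_
          · change (0 : Fin 3 → Module.End k (MvPolynomial (Fin 3) k ⧸ J)) = c • 0
            rw [smul_zero]
          · funext j
            refine LinearMap.ext fun b => ?_
            change (c • a j) * b = c • (a j * b)
            rw [smul_mul_assoc] }
    apply LinearMap.finrank_le_finrank_of_injective (f := ι)
    intro a a' h
    have h1 := congrArg (fun z => (z : pairZ J y).1.2) (congrArg Subtype.val h)
    funext j
    have h2 := LinearMap.congr_fun (congrFun h1 j) 1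
    change a j * 1 = a' j * 1 at h2
    rwa [mul_one, mul_one] at h2
  have hl2 : Module.finrank k (LinearMap.ker π2) ≤ Module.finrank k (Fin 3 → MvPolynomial (Fin 3) k ⧸ J) := by
    let ε : LinearMap.ker π2 →ₗ[k] (Fin 3 → MvPolynomial (Fin 3) k ⧸ J) :=
      { toFun := fun z i => z.1.1.1 i 1
        map_add' := fun z z' => rfl
        map_smul' := fun c z => rfl }
    apply LinearMap.finrank_le_finrank_of_injective (f := ε)
    have hz : ∀ z : LinearMap.ker π2, z.1.1.2 = 0 ∧ ∀ i v, z.1.1.1 i v = v * z.1.1.1 i 1 := by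
      intro z
      have hz2 : z.1.1.2 = 0 := congrArg Subtype.val (LinearMap.mem_ker.1 z.2)
      have h3 := z.1.2.2.2
      refine ⟨hz2, fun i v => ?_⟩
      have h4 : ∀ j, mulT J y j * z.1.1.1 i - z.1.1.1 i * mulT J y j = 0 := by
        intro j
        rw [← h3 i j, hz2, Pi.zero_apply, mul_zero, zero_mul, sub_zero]
      exact commute_gen J y hy _ h4 v
    intro z z' h
    apply Subtype.ext
    apply Subtype.ext
    refine Prod.ext ?_ ((hz z).1.trans (hz z').1.symm)
    funext i
    refine LinearMap.ext fun v => ?_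
    have h6 : z.1.1.1 i 1 = z'.1.1.1 i 1 := congrFun h i
    rw [(hz z).2, (hz z').2, h6]
  omega

end pair

section iso

variable {k : Type*} [Field k] (J J' : Ideal (MvPolynomial (Fin 3) k))

theorem adjoin_mk : Algebra.adjoin k (Set.range fun i =>
    (Ideal.Quotient.mk J (X i) : MvPolynomial (Fin 3) k ⧸ J)) = ⊤ := by
  have h1 := MvPolynomial.adjoin_range_X (R := k) (σ := Fin 3)
  have h2 := congrArg (Subalgebra.map (Ideal.Quotient.mkₐ k J)) h1
  rw [AlgHom.map_adjoin, ← Set.range_comp, Algebra.map_top,
    (AlgHom.range_eq_top _).2 (Ideal.Quotient.mkₐ_surjective k J)] at h2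
  exact h2

/-- Conjugation by a linear equivalence. -/
theorem finrank_ker_conj {V V' : Type*} [AddCommGroup V] [Module k V] [AddCommGroup V']
    [Module k V'] (e : V ≃ₗ[k] V') (X : Fin 3 → Module.End k V) (Y : Fin 3 → Module.End k V')
    (h : ∀ i v, e (X i v) = Y i (e v)) :
    Module.finrank k (LinearMap.ker (curl X)) = Module.finrank k (LinearMap.ker (curl Y)) := by
  have h' : ∀ i v, e.symm (Y i v) = X i (e.symm v) := by
    intro i v
    apply e.injective
    rw [h, e.apply_symm_apply, e.apply_symm_apply]
  let E : (Fin 3 → Module.End k V) ≃ₗ[k] (Fin 3 → Module.End k V') :=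
    LinearEquiv.piCongrRight fun _ => e.conj
  have hE : ∀ u i v, E u i v = e (u i (e.symm v)) := fun u i v => rfl
  have hmap : LinearMap.ker (curl Y) = (LinearMap.ker (curl X)).map (E : _ →ₗ[k] _) := by
    ext u
    constructor
    · intro hu
      refine ⟨E.symm u, ?_, E.apply_symm_apply u⟩
      rw [SetLike.mem_coe, mem_ker_curl]
      rw [mem_ker_curl] at hu
      intro i j
      refine LinearMap.ext fun v => ?_
      have h1 := LinearMap.congr_fun (hu i j) (e v)
      have hs : ∀ i v, (E.symm u) i v = e.symm (u i (e v)) := fun i v => rfl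
      change X i ((E.symm u) j v) - (E.symm u) j (X i v)
        = X j ((E.symm u) i v) - (E.symm u) i (X j v)
      rw [hs, hs, hs, hs, ← h', ← h', h, h, ← map_sub, ← map_sub]
      exact congrArg e.symm h1
    · rintro ⟨v, hv, rfl⟩
      rw [SetLike.mem_coe, mem_ker_curl] at hv
      rw [mem_ker_curl]
      intro i j
      refine LinearMap.ext fun z => ?_
      have h1 := LinearMap.congr_fun (hv i j) (e.symm z)
      change Y i (E v j z) - E v j (Y i z) = Y j (E v i z) - E v i (Y j z)
      rw [hE, hE, hE, hE, ← h, ← h, h', h', ← map_sub, ← map_sub]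
      exact congrArg e h1
  rw [hmap]
  exact (LinearEquiv.finrank_map_eq E _).symm

/-- **The tangent dimension depends only on the coordinate ring.** -/
theorem finrank_hom_of_equiv [Module.Finite k (MvPolynomial (Fin 3) k ⧸ J)]
    (e : (MvPolynomial (Fin 3) k ⧸ J) ≃ₐ[k] (MvPolynomial (Fin 3) k ⧸ J')) :
    Module.finrank k (J →ₗ[MvPolynomial (Fin 3) k] MvPolynomial (Fin 3) k ⧸ J)
      = Module.finrank k (J' →ₗ[MvPolynomial (Fin 3) k] MvPolynomial (Fin 3) k ⧸ J') := by
  have hfin : Module.Finite k (MvPolynomial (Fin 3) k ⧸ J') :=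
    Module.Finite.equiv e.toLinearEquiv
  have hd := LinearEquiv.finrank_eq e.toLinearEquiv
  have key : ∀ (J J' : Ideal (MvPolynomial (Fin 3) k))
      (_ : Module.Finite k (MvPolynomial (Fin 3) k ⧸ J))
      (e : (MvPolynomial (Fin 3) k ⧸ J) ≃ₐ[k] (MvPolynomial (Fin 3) k ⧸ J')),
      Module.finrank k (LinearMap.ker (curl (op J)))
        ≤ Module.finrank k (LinearMap.ker (curl (op J'))) := by
    intro J J' _ e
    let y : Fin 3 → MvPolynomial (Fin 3) k ⧸ J := fun i => e.symm (Ideal.Quotient.mk J' (X i))
    have hy : Algebra.adjoin k (Set.range y) = ⊤ := by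
      have h1 := congrArg (Subalgebra.map e.symm.toAlgHom)
        (adjoin_mk J')
      rw [AlgHom.map_adjoin, ← Set.range_comp, Algebra.map_top,
        (AlgHom.range_eq_top _).2 e.symm.surjective] at h1
      exact h1
    refine (finrank_ker_le J y hy).trans (le_of_eq ?_)
    apply finrank_ker_conj e.toLinearEquiv
    intro i v
    change e (y i * v) = Ideal.Quotient.mk J' (X i) * e v
    rw [map_mul, e.apply_symm_apply]
  have h1 := key J J' inferInstance e
  have h2 := key J' J hfin e.symm
  have h3 := finrank_hom J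
  have h4 := finrank_hom J'
  rw [hd] at h3
  omega

end iso

end Pool.Agent.H17.LF
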